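import Pool.Agent.Lib.Pb43922.Defs

open scoped MatrixGroups LinearAlgebra.Projectivization

namespace Pool.Agent.Lib.Pb43922

open Real

theorem two_pi_ne : (2 * π : ℝ) ≠ 0 := by positivity

theorem pt_eq_iff {s t : ℝ} : pt s = pt t ↔ ∃ k : ℤ, s = t + k * (2 * π) := by
  unfold pt
  rw [Projectivization.mk_eq_mk_iff']
  constructor
  · rintro ⟨a, ha⟩
    have h0 := congrFun ha 0
    have h1 := congrFun ha 1
    simp at h0 h1
    have hs : sin (s / 2 - t / 2) = 0 := by
      rw [sin_sub, ← h0, ← h1]; ring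
    rw [sin_eq_zero_iff] at hs
    obtain ⟨n, hn⟩ := hs
    exact ⟨n, by linarith⟩
  · rintro ⟨k, hk⟩
    rw [hk]
    have e1 : (t + k * (2 * π)) / 2 = t / 2 + k * π := by ring
    rw [e1, cos_add_int_mul_pi, sin_add_int_mul_pi]
    refine ⟨(-1) ^ k, ?_⟩
    ext i
    fin_cases i <;> simp

theorem pt_add_int (t : ℝ) (k : ℤ) : pt (t + k * (2 * π)) = pt t := pt_eq_iff.2 ⟨k, rfl⟩

theorem pt_add_two_pi (t : ℝ) : pt (t + 2 * π) = pt t := pt_eq_iff.2 ⟨1, by simp⟩

theorem pt_surjective (x : RP1) : ∃ θ : ℝ, pt θ = x := by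
  induction x using Projectivization.ind with
  | _ v hv =>
    -- use polar coordinates
    set z : ℂ := ⟨v 0, v 1⟩ with hz
    have hz0 : z ≠ 0 := by
      intro h
      apply hv
      have h0 := congrArg Complex.re h
      have h1 := congrArg Complex.im h
      simp [hz] at h0 h1
      ext i; fin_cases i <;> simp [h0, h1]
    refine ⟨2 * Complex.arg z, ?_⟩
    unfold pt
    rw [Projectivization.mk_eq_mk_iff']
    have e : 2 * Complex.arg z / 2 = Complex.arg z := by ring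
    rw [e]
    refine ⟨‖z‖⁻¹, ?_⟩
    have hn : ‖z‖ ≠ 0 := by simpa using hz0
    ext i
    fin_cases i
    · simp [Complex.cos_arg hz0]; rw [hz]; field_simp
    · simp [Complex.sin_arg]; rw [hz]; field_simp

/-- the quotient `(A z) / z` for `z = cos (θ/2) + i sin (θ/2)`. -/
noncomputable def wq (A : SL(2, ℝ)) (θ : ℝ) : ℂ :=
  ⟨(A 0 0 * cos (θ / 2) + A 0 1 * sin (θ / 2)) * cos (θ / 2) +
      (A 1 0 * cos (θ / 2) + A 1 1 * sin (θ / 2)) * sin (θ / 2),
    (A 1 0 * cos (θ / 2) + A 1 1 * sin (θ / 2)) * cos (θ / 2) -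
      (A 0 0 * cos (θ / 2) + A 0 1 * sin (θ / 2)) * sin (θ / 2)⟩

theorem det_eq (A : SL(2, ℝ)) : A 0 0 * A 1 1 - A 0 1 * A 1 0 = 1 := by
  have := A.2
  rw [Matrix.det_fin_two] at this
  exact this

theorem wq_ne_zero (A : SL(2, ℝ)) (θ : ℝ) : wq A θ ≠ 0 := by
  intro h
  have h0 := congrArg Complex.re h
  have h1 := congrArg Complex.im h
  simp only [wq, Complex.zero_re, Complex.zero_im] at h0 h1
  have hd := det_eq A
  have hcs := cos_sq_add_sin_sq (θ / 2)
  set c := cos (θ / 2)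
  set s := sin (θ / 2)
  have hu : A 0 0 * c + A 0 1 * s = 0 := by
    have : (A 0 0 * c + A 0 1 * s) * (c ^ 2 + s ^ 2) = 0 := by
      linear_combination c * h0 - s * h1
    rwa [hcs, mul_one] at this
  have hv : A 1 0 * c + A 1 1 * s = 0 := by
    have : (A 1 0 * c + A 1 1 * s) * (c ^ 2 + s ^ 2) = 0 := by
      linear_combination s * h0 + c * h1
    rwa [hcs, mul_one] at this
  have hc : c = 0 := by linear_combination (-c) * hd + A 1 1 * hu - A 0 1 * hv
  have hs : s = 0 := by linear_combination (-s) * hd + A 0 0 * hv - A 1 0 * hu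
  rw [hc, hs] at hcs
  norm_num at hcs

theorem smul_vec (A : SL(2, ℝ)) (v : Fin 2 → ℝ) (i : Fin 2) :
    (A • v) i = A i 0 * v 0 + A i 1 * v 1 := by
  have h1 : A • v = (A : Matrix (Fin 2) (Fin 2) ℝ).mulVec v := rfl
  rw [h1, Matrix.mulVec, dotProduct, Fin.sum_univ_two]

theorem smul_pt (A : SL(2, ℝ)) (θ : ℝ) : A • pt θ = pt (θ + 2 * (wq A θ).arg) := by
  unfold pt
  rw [Projectivization.smul_mk, Projectivization.mk_eq_mk_iff']
  have e : (θ + 2 * (wq A θ).arg) / 2 = θ / 2 + (wq A θ).arg := by ring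
  rw [e, cos_add, sin_add, Complex.cos_arg (wq_ne_zero A θ), Complex.sin_arg]
  have hn : ‖wq A θ‖ ≠ 0 := by simpa using wq_ne_zero A θ
  have hcs := cos_sq_add_sin_sq (θ / 2)
  refine ⟨‖wq A θ‖, ?_⟩
  ext i
  rw [smul_vec]
  fin_cases i
  · simp
    field_simp
    simp only [wq]
    linear_combination (A 0 0 * cos (θ / 2) + A 0 1 * sin (θ / 2)) * hcs
  · simp
    field_simp
    simp only [wq]
    linear_combination (A 1 0 * cos (θ / 2) + A 1 1 * sin (θ / 2)) * hcs

end Pool.Agent.Lib.Pb43922
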