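import Pool.Agent.Lib.Pb43922.Poly

open scoped MatrixGroups LinearAlgebra.Projectivization Topology

namespace Pool.Agent.Lib.Pb43922

open Real

/-- A tuple of lifts one of whose commutators is an irrational translation gives admissibility
for every `ε > 0`. -/
theorem admissible_of_tuple {g : ℕ} {e : ℤ} {F G : Fin g → (ℝ ≃o ℝ)} {P Q : Fin g → PSL(2, ℝ)}
    (hF : ∀ i, IsLift (P i) (F i)) (hG : ∀ i, IsLift (Q i) (G i))
    (h : (List.ofFn fun i => F i * G i * (F i)⁻¹ * (G i)⁻¹).prod = T (e * (2 * π)))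
    {j : Fin g} {φ₀ : ℝ} (hj : F j * G j * (F j)⁻¹ * (G j)⁻¹ = T φ₀)
    (hirr : Irrational (φ₀ / (2 * π))) {ε : ℝ} (hε : 0 < ε) : Admissible e ε g := by
  obtain ⟨ρ, hA, hB, he⟩ := exists_rep hF hG h
  have hr : ρ (genA j * genB j * (genA j)⁻¹ * (genB j)⁻¹) =
      (QuotientGroup.mk (rot φ₀) : PSL(2, ℝ)) := by
    have h1 := (hF j).comm (hG j)
    rw [hj] at h1
    rw [map_mul, map_mul, map_mul, map_inv, map_inv, hA, hB]
    exact h1.unique (isLift_T φ₀)
  have ha : ∃ a, ρ a ∉ U1 := by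
    by_contra hcon
    push Not at hcon
    obtain ⟨a, ha⟩ := exists_rot_of_mem_U1 (hcon (genA j))
    obtain ⟨b, hb⟩ := exists_rot_of_mem_U1 (hcon (genB j))
    have h1 : IsLift (ρ (genA j * genB j * (genA j)⁻¹ * (genB j)⁻¹)) 1 := by
      have h2 := (isLift_T a).comm (isLift_T b)
      rw [map_mul, map_mul, map_mul, map_inv, map_inv, ha, hb]
      convert h2 using 1
      rw [(T_commute a b).eq]; group
    have h3 : ρ (genA j * genB j * (genA j)⁻¹ * (genB j)⁻¹) = 1 := h1.unique IsLift.one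
    rw [hr] at h3
    have h4 := isLift_T φ₀
    rw [h3] at h4
    obtain ⟨k, hk⟩ := isLift_one_iff h4
    have h5 := congrArg (fun f : ℝ ≃o ℝ => f 0) hk
    simp only [T_apply, zero_add] at h5
    rw [h5, mul_div_assoc, div_self two_pi_ne, mul_one] at hirr
    exact hirr ⟨k, by simp⟩
  obtain ⟨a, ha⟩ := ha
  exact ⟨{s | NearU1 ε (ρ s)}, ρ, generation ρ hr hirr ha hε, he, fun s hs => hs⟩

theorem admissible_pos {h E : ℕ} (hE : 1 ≤ E) (hEh : E + 1 ≤ 2 * h) {ε : ℝ} (hε : 0 < ε) :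
    Admissible E ε (h + 1) ∧ Admissible (-(E : ℤ)) ε (h + 1) := by
  have hpi := pi_pos
  have hE' : (1 : ℝ) ≤ E := by exact_mod_cast hE
  have hEh' : (E : ℝ) + 1 ≤ 2 * h := by exact_mod_cast hEh
  have h2a : (1 : ℝ) < √2 := by
    rw [show (1 : ℝ) = √1 by simp]; exact sqrt_lt_sqrt (by norm_num) (by norm_num)
  have h2b : √2 < 2 := by
    rw [sqrt_lt' (by norm_num)]; norm_num
  set α₁ : ℝ := 2 * π * (√2 - 1) with hα₁
  have hα₁0 : 0 < α₁ := by rw [hα₁]; apply mul_pos (by positivity); linarith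
  set α₂ : ℝ := 2 * π * (2 * h - E) - α₁ with hα₂
  have hα₂e : α₂ = 2 * π * (2 * h - E + 1 - √2) := by rw [hα₂, hα₁]; ring
  obtain ⟨F₀, G₀, P₀, Q₀, hF₀, hG₀, hp₀⟩ := poly_tuple (h := 1) le_rfl (α := α₁) hα₁0 (by
    rw [hα₁]; push_cast
    have : √2 - 1 < 2 * 1 - 1 := by linarith
    exact mul_lt_mul_of_pos_left this (by positivity))
  obtain ⟨F₁, G₁, P₁, Q₁, hF₁, hG₁, hp₁⟩ := poly_tuple (h := h) (by omega) (α := α₂) (by
    rw [hα₂e]; apply mul_pos (by positivity); linarith) (by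
    rw [hα₂e]
    exact mul_lt_mul_of_pos_left (by linarith) (by positivity))
  simp only [List.ofFn_succ, List.ofFn_zero, List.prod_cons, List.prod_nil, mul_one] at hp₀
  set φ₀ : ℝ := 2 * π * (2 * ((1 : ℕ) : ℝ) - 1) - α₁ with hφ₀
  have hirr : Irrational (φ₀ / (2 * π)) := by
    have : φ₀ / (2 * π) = (2 : ℕ) - √2 := by
      rw [hφ₀, hα₁]; push_cast; field_simp; ring
    rw [this]
    exact irrational_sqrt_two.natCast_sub 2
  -- the combined tuple
  set F : Fin (h + 1) → (ℝ ≃o ℝ) := Fin.cons (F₀ 0) F₁ with hFdef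
  set G : Fin (h + 1) → (ℝ ≃o ℝ) := Fin.cons (G₀ 0) G₁ with hGdef
  set P : Fin (h + 1) → PSL(2, ℝ) := Fin.cons (P₀ 0) P₁ with hPdef
  set Q : Fin (h + 1) → PSL(2, ℝ) := Fin.cons (Q₀ 0) Q₁ with hQdef
  have hF : ∀ i, IsLift (P i) (F i) := by
    intro i
    refine Fin.cases ?_ (fun i => ?_) i
    · simpa [hFdef, hPdef] using hF₀ 0
    · simpa [hFdef, hPdef] using hF₁ i
  have hG : ∀ i, IsLift (Q i) (G i) := by
    intro i
    refine Fin.cases ?_ (fun i => ?_) i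
    · simpa [hGdef, hQdef] using hG₀ 0
    · simpa [hGdef, hQdef] using hG₁ i
  have hcomm0 : F 0 * G 0 * (F 0)⁻¹ * (G 0)⁻¹ = T φ₀ := by
    simp only [hFdef, hGdef, Fin.cons_zero]
    exact hp₀
  have hprod : (List.ofFn fun i => F i * G i * (F i)⁻¹ * (G i)⁻¹).prod =
      T ((E : ℤ) * (2 * π)) := by
    rw [List.ofFn_succ, List.prod_cons, hcomm0]
    simp only [hFdef, hGdef, Fin.cons_succ]
    rw [hp₁, T_mul]
    congr 1
    rw [hφ₀, hα₂]; push_cast; ring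
  refine ⟨admissible_of_tuple hF hG hprod hcomm0 hirr hε, ?_⟩
  have hinv := ofFn_comm_inv F G
  rw [hprod, T_inv] at hinv
  refine admissible_of_tuple (e := -(E : ℤ)) (F := fun i => G (Fin.rev i))
    (G := fun i => F (Fin.rev i)) (P := fun i => Q (Fin.rev i)) (Q := fun i => P (Fin.rev i))
    (fun i => hG _) (fun i => hF _) (by rw [hinv]; congr 1; push_cast; ring)
    (j := Fin.last h) (φ₀ := -φ₀) ?_ ?_ hε
  · simp only [Fin.rev_last]
    rw [← T_inv, ← hcomm0]; group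
  · rw [neg_div]; exact hirr.neg

theorem bounded_final {e : ℤ} (he : e ≠ 0) {ε : ℝ} (hε : 0 < ε) :
    Admissible e ε (minGenus e ε) ∧ |e| + 2 ≤ 2 * (minGenus e ε : ℤ) ∧
      2 * (minGenus e ε : ℤ) ≤ |e| + 4 := by
  have h1 : 1 ≤ e.natAbs := Int.natAbs_pos.2 he
  set h : ℕ := (e.natAbs + 2) / 2 with hh
  have h2 := admissible_pos (h := h) h1 (by omega) hε
  have hadm : Admissible e ε (h + 1) := by
    rcases Int.natAbs_eq e with h3 | h3
    · rw [h3]; exact h2.1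
    · rw [h3]; exact h2.2
  have hmin : Admissible e ε (minGenus e ε) :=
    Nat.sInf_mem (s := {g : ℕ | Admissible e ε g}) ⟨h + 1, hadm⟩
  refine ⟨hmin, ?_, ?_⟩
  · obtain ⟨S, ρ, -, ⟨F, G, hF, hG, hprod⟩, -⟩ := hmin
    exact milnor_wood (fun i => (hF i).per) (fun i => (hG i).per) hprod he
  · have : minGenus e ε ≤ h + 1 := Nat.sInf_le hadm
    rw [Int.abs_eq_natAbs]
    omega

end Pool.Agent.Lib.Pb43922
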