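import Mathlib

/-!
# Definitions for the controlled Milnor-Wood inequality (`MP_b43922_gt`)
-/

open scoped MatrixGroups LinearAlgebra.Projectivization

namespace Pool.Agent.Lib.Pb43922

/-- The relator `[a₁,b₁]⋯[a_g,b_g]` in the free group on `a₁,…,a_g` (`Sum.inl`) and
`b₁,…,b_g` (`Sum.inr`). -/
def surfaceRelator (g : ℕ) : FreeGroup (Fin g ⊕ Fin g) :=
  (List.ofFn fun i : Fin g =>
    FreeGroup.of (Sum.inl i) * FreeGroup.of (Sum.inr i) *
      (FreeGroup.of (Sum.inl i))⁻¹ * (FreeGroup.of (Sum.inr i))⁻¹).prod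

/-- The fundamental group `π₁(Σ_g) = ⟨a₁,b₁,…,a_g,b_g | [a₁,b₁]⋯[a_g,b_g]⟩` of the closed
oriented surface of genus `g`. -/
abbrev SurfaceGroup (g : ℕ) : Type := PresentedGroup {surfaceRelator g}

/-- The standard generator `a_i` of `π₁(Σ_g)`. -/
def genA {g : ℕ} (i : Fin g) : SurfaceGroup g := PresentedGroup.of (Sum.inl i)

/-- The standard generator `b_i` of `π₁(Σ_g)`. -/
def genB {g : ℕ} (i : Fin g) : SurfaceGroup g := PresentedGroup.of (Sum.inr i)

/-- The circle `S¹ = ℝP¹`, on which Mathlib's `PSL(2, ℝ)` acts by projective transformations. -/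
abbrev RP1 : Type := ℙ ℝ (Fin 2 → ℝ)

theorem vec_ne_zero (x : ℝ) : (![Real.cos x, Real.sin x] : Fin 2 → ℝ) ≠ 0 := by
  intro h
  have h0 := congrFun h 0
  have h1 := congrFun h 1
  simp at h0 h1
  have := Real.sin_sq_add_cos_sq x
  rw [h0, h1] at this
  norm_num at this

/-- The universal covering `ℝ → ℝP¹`, `θ ↦` the line spanned by `(cos (θ/2), sin (θ/2))`.
It has period `2π`, and a rotation of `ℝP¹` is covered by a translation of `ℝ`. -/
noncomputable def pt (θ : ℝ) : RP1 :=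
  Projectivization.mk ℝ ![Real.cos (θ / 2), Real.sin (θ / 2)] (vec_ne_zero (θ / 2))

/-- The rotation-invariant length metric on `ℝP¹` of total length `2π`. -/
noncomputable def circleDist (x y : RP1) : ℝ :=
  sInf {r : ℝ | ∃ s t : ℝ, pt s = x ∧ pt t = y ∧ r = |s - t|}

/-- The sup norm distance between two self-maps of the circle. -/
noncomputable def supDist (f h : RP1 → RP1) : ℝ := ⨆ x : RP1, circleDist (f x) (h x)

/-- `U(1) = PSO(2) ⊂ PSL(2,ℝ)`: the classes of the orthogonal matrices in `SL(2,ℝ)`. -/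
def U1 : Set PSL(2, ℝ) :=
  {P | ∃ A : SL(2, ℝ), (A : Matrix (Fin 2) (Fin 2) ℝ) ∈ Matrix.orthogonalGroup (Fin 2) ℝ ∧
    (QuotientGroup.mk A : PSL(2, ℝ)) = P}

/-- `P` lies within sup norm distance `ε` of some element of `U(1)`. -/
def NearU1 (ε : ℝ) (P : PSL(2, ℝ)) : Prop :=
  ∃ R ∈ U1, supDist (fun x => P • x) (fun x => R • x) ≤ ε

/-- `F` (an increasing homeomorphism of `ℝ`) is a lift to the universal cover of the circle of
the projective transformation `P`. -/
def IsLift (P : PSL(2, ℝ)) (F : ℝ ≃o ℝ) : Prop := ∀ θ : ℝ, pt (F θ) = P • pt θ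

/-- The flat circle bundle with holonomy `ρ` has Euler number `e` (Milnor): for lifts `F i`,
`G i` of `ρ(a_i)`, `ρ(b_i)` to increasing homeomorphisms of `ℝ`, the product of commutators
`[F₁,G₁]⋯[F_g,G_g]` is the translation by `e` times the period `2π`. -/
def HasEulerNumber {g : ℕ} (ρ : SurfaceGroup g →* PSL(2, ℝ)) (e : ℤ) : Prop :=
  ∃ F G : Fin g → (ℝ ≃o ℝ), (∀ i, IsLift (ρ (genA i)) (F i)) ∧ (∀ i, IsLift (ρ (genB i)) (G i)) ∧
    ∀ θ : ℝ, (List.ofFn fun i => F i * G i * (F i)⁻¹ * (G i)⁻¹).prod θ = θ + e * (2 * Real.pi)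

/-- Genus `g` is admissible for `e` and `ε`: there are a generating set `S` of `π₁(Σ_g)` and a
representation `ρ : π₁(Σ_g) → PSL(2,ℝ)` whose flat circle bundle has Euler number `e` and such
that every element of `ρ(S)` lies within sup norm distance `ε` of some element of `U(1)`. -/
def Admissible (e : ℤ) (ε : ℝ) (g : ℕ) : Prop :=
  ∃ (S : Set (SurfaceGroup g)) (ρ : SurfaceGroup g →* PSL(2, ℝ)),
    Subgroup.closure S = ⊤ ∧ HasEulerNumber ρ e ∧ ∀ s ∈ S, NearU1 ε (ρ s)

/-- `g_e(ε)`: the smallest admissible genus. -/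
noncomputable def minGenus (e : ℤ) (ε : ℝ) : ℕ := sInf {g : ℕ | Admissible e ε g}

/-- The variant of `Admissible` in which `S` is the standard generating set
`{a₁,b₁,…,a_g,b_g}`. -/
def AdmissibleStd (e : ℤ) (ε : ℝ) (g : ℕ) : Prop :=
  ∃ ρ : SurfaceGroup g →* PSL(2, ℝ), HasEulerNumber ρ e ∧
    ∀ i : Fin g, NearU1 ε (ρ (genA i)) ∧ NearU1 ε (ρ (genB i))

/-- The smallest genus for the standard generating sets. -/
noncomputable def minGenusStd (e : ℤ) (ε : ℝ) : ℕ := sInf {g : ℕ | AdmissibleStd e ε g}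

end Pool.Agent.Lib.Pb43922
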