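import Pool.Agent.Lib.Pb43922.Hyp

open scoped MatrixGroups LinearAlgebra.Projectivization

namespace Pool.Agent.Lib.Pb43922

open Real

/-! ### list products -/

theorem ofFn_prod_succ {M : Type*} [Monoid M] {n : ℕ} (f : Fin (n + 1) → M) :
    (List.ofFn f).prod = (List.ofFn fun i : Fin n => f i.castSucc).prod * f (Fin.last n) := by
  rw [List.ofFn_succ', List.concat_eq_append, List.prod_append, List.prod_singleton]

theorem ofFn_prod_conj {G : Type*} [Group G] (X R : G) (n : ℕ) :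
    (List.ofFn fun i : Fin n => R ^ (i : ℕ) * X * (R ^ (i : ℕ))⁻¹).prod =
      (X * R) ^ n * (R ^ n)⁻¹ := by
  induction n with
  | zero => simp
  | succ n ih =>
    rw [ofFn_prod_succ]
    simp only [Fin.val_castSucc, Fin.val_last]
    rw [ih, pow_succ (X * R), pow_succ R]
    group

theorem ofFn_prod_conj' {G : Type*} [Group G] {n : ℕ} (f : Fin n → G) (Z : G) :
    (List.ofFn fun i => Z * f i * Z⁻¹).prod = Z * (List.ofFn f).prod * Z⁻¹ := by
  induction n with
  | zero => simp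
  | succ n ih =>
    rw [ofFn_prod_succ, ofFn_prod_succ, ih (fun i => f i.castSucc)]
    group

theorem IsLift.ofFn_prod {n : ℕ} {P : Fin n → PSL(2, ℝ)} {F : Fin n → (ℝ ≃o ℝ)}
    (h : ∀ i, IsLift (P i) (F i)) : IsLift (List.ofFn P).prod (List.ofFn F).prod := by
  induction n with
  | zero => simpa using IsLift.one
  | succ n ih =>
    rw [ofFn_prod_succ, ofFn_prod_succ]
    exact (ih fun i => h i.castSucc).mul (h (Fin.last n))

/-- the commutator in the form used in the definitions -/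
abbrev comm {G : Type*} [Group G] (a b : G) : G := a * b * a⁻¹ * b⁻¹

theorem IsLift.comm {P Q : PSL(2, ℝ)} {F G : ℝ ≃o ℝ} (hF : IsLift P F) (hG : IsLift Q G) :
    IsLift (P * Q * P⁻¹ * Q⁻¹) (F * G * F⁻¹ * G⁻¹) :=
  ((hF.mul hG).mul hF.inv).mul hG.inv

/-- A tuple of lifts whose product of commutators is the translation by `2πe` comes from a
representation of the surface group with Euler number `e`. -/
theorem exists_rep {g : ℕ} {e : ℤ} {F G : Fin g → (ℝ ≃o ℝ)} {P Q : Fin g → PSL(2, ℝ)}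
    (hF : ∀ i, IsLift (P i) (F i)) (hG : ∀ i, IsLift (Q i) (G i))
    (h : (List.ofFn fun i => F i * G i * (F i)⁻¹ * (G i)⁻¹).prod = T (e * (2 * π))) :
    ∃ ρ : SurfaceGroup g →* PSL(2, ℝ), (∀ i, ρ (genA i) = P i) ∧ (∀ i, ρ (genB i) = Q i) ∧
      HasEulerNumber ρ e := by
  have hrel : ∀ r ∈ ({surfaceRelator g} : Set (FreeGroup (Fin g ⊕ Fin g))),
      FreeGroup.lift (Sum.elim P Q) r = 1 := by
    intro r hr
    rw [Set.mem_singleton_iff] at hr
    subst hr
    have h1 : FreeGroup.lift (Sum.elim P Q) (surfaceRelator g) =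
        (List.ofFn fun i => P i * Q i * (P i)⁻¹ * (Q i)⁻¹).prod := by
      rw [surfaceRelator, map_list_prod, List.map_ofFn]
      congr 1
      congr 1
      ext i
      simp
    rw [h1]
    have h2 := IsLift.ofFn_prod (fun i => (hF i).comm (hG i))
    rw [h] at h2
    exact h2.unique (isLift_T_int e)
  refine ⟨PresentedGroup.toGroup hrel, fun i => ?_, fun i => ?_, F, G, fun i => ?_, fun i => ?_,
    fun θ => ?_⟩
  · simp [genA]
  · simp [genB]
  · simpa [genA] using hF i
  · simpa [genB] using hG i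
  · rw [h, T_apply]

/-! ### near `U(1)` -/

theorem circleDist_pt_le (s t : ℝ) : circleDist (pt s) (pt t) ≤ |s - t| :=
  csInf_le ⟨0, by rintro r ⟨s, t, -, -, rfl⟩; exact abs_nonneg _⟩ ⟨s, t, rfl, rfl, rfl⟩

theorem circleDist_le_pi (x y : RP1) : circleDist x y ≤ 2 * π := by
  obtain ⟨s, rfl⟩ := pt_surjective x
  obtain ⟨t, rfl⟩ := pt_surjective y
  have hpi : (0 : ℝ) < 2 * π := by positivity
  have h1 := toIcoMod_add_toIcoDiv_zsmul hpi t s
  have hm := toIcoMod_mem_Ico hpi t s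
  rw [zsmul_eq_mul] at h1
  rw [← h1, pt_add_int]
  refine (circleDist_pt_le _ _).trans ?_
  rw [abs_le]
  constructor <;> linarith [hm.1, hm.2]

theorem circleDist_nonneg (x y : RP1) : 0 ≤ circleDist x y :=
  Real.sInf_nonneg (by rintro r ⟨s, t, -, -, rfl⟩; exact abs_nonneg _)

instance : Nonempty RP1 := ⟨pt 0⟩

theorem bddAbove_supDist (f h : RP1 → RP1) :
    BddAbove (Set.range fun x : RP1 => circleDist (f x) (h x)) :=
  ⟨2 * π, by rintro _ ⟨x, rfl⟩; exact circleDist_le_pi _ _⟩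

theorem supDist_le {f h : RP1 → RP1} {ε : ℝ} (H : ∀ x, circleDist (f x) (h x) ≤ ε) :
    supDist f h ≤ ε := ciSup_le H

theorem le_supDist (f h : RP1 → RP1) (x : RP1) : circleDist (f x) (h x) ≤ supDist f h :=
  le_ciSup (bddAbove_supDist f h) x

theorem nearU1_of_lift {P : PSL(2, ℝ)} {F : ℝ ≃o ℝ} (hF : IsLift P F) {φ ε : ℝ}
    (h : ∀ x, |F x - (x + φ)| ≤ ε) : NearU1 ε P := by
  refine ⟨_, rot_mem_U1 φ, supDist_le fun x => ?_⟩
  obtain ⟨θ, rfl⟩ := pt_surjective x
  rw [← hF, ← isLift_T φ]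
  exact (circleDist_pt_le _ _).trans (h θ)

theorem exists_near_of_circleDist_lt {s t ε : ℝ} (h : circleDist (pt s) (pt t) < ε) :
    ∃ k : ℤ, |s - t - k * (2 * π)| < ε := by
  have hne : {r : ℝ | ∃ s' t' : ℝ, pt s' = pt s ∧ pt t' = pt t ∧ r = |s' - t'|}.Nonempty :=
    ⟨_, s, t, rfl, rfl, rfl⟩
  obtain ⟨r, ⟨s', t', hs, ht, rfl⟩, hr⟩ := exists_lt_of_csInf_lt hne h
  obtain ⟨i, hi⟩ := pt_eq_iff.1 hs
  obtain ⟨j, hj⟩ := pt_eq_iff.1 ht
  refine ⟨j - i, ?_⟩
  have e : s - t - ((j - i : ℤ) : ℝ) * (2 * π) = s' - t' := by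
    rw [hi, hj]; push_cast; ring
  rw [e]
  exact hr

/-- a projective transformation near `U(1)` has all its lifts near translations -/
theorem exists_translation_near {P : PSL(2, ℝ)} {F : ℝ ≃o ℝ} (hF : IsLift P F) {ε ε' : ℝ}
    (hP : NearU1 ε P) (h1 : ε < ε') (h2 : ε' < π) : ∃ φ : ℝ, ∀ x, |F x - (x + φ)| < ε' := by
  obtain ⟨R, hR, hsup⟩ := hP
  obtain ⟨φ, rfl⟩ := exists_rot_of_mem_U1 hR
  have h : ∀ x : ℝ, ∃ k : ℤ, |F x - (x + φ) - k * (2 * π)| < ε' := by
    intro x
    apply exists_near_of_circleDist_lt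
    have := (le_supDist _ _ (pt x)).trans hsup
    rw [← hF, ← isLift_T φ] at this
    exact lt_of_le_of_lt this h1
  choose k hk using h
  have hloc : IsLocallyConstant k := by
    rw [IsLocallyConstant.iff_eventually_eq]
    intro x
    have hc : Continuous fun y : ℝ => |F y - (y + φ) - k x * (2 * π)| := by
      have := F.continuous
      fun_prop
    have := hc.continuousAt.eventually_lt (continuousAt_const (y := ε')) (hk x)
    filter_upwards [this] with y hy
    have h3 := hk y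
    rw [abs_lt] at hy h3
    have a1 : ((k y - k x : ℤ) : ℝ) < 1 := by
      push_cast
      by_contra hcon; push Not at hcon
      nlinarith [pi_pos]
    have a2 : (-1 : ℝ) < ((k y - k x : ℤ) : ℝ) := by
      push_cast
      by_contra hcon; push Not at hcon
      nlinarith [pi_pos]
    have b1 : k y - k x < 1 := by exact_mod_cast a1
    have b2 : -1 < k y - k x := by exact_mod_cast a2
    omega
  refine ⟨φ + k 0 * (2 * π), fun x => ?_⟩
  have hx : k x = k 0 := hloc.apply_eq_of_preconnectedSpace x 0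
  have := hk x
  rw [hx] at this
  convert this using 2
  ring

end Pool.Agent.Lib.Pb43922
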