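import Pool.Agent.Lib.Pb43922.Kak
import Pool.Agent.Lib.Pb43922.Rep

/-!
# Sanity check: every representation has exactly one Euler number

This file is not used in the proofs; it shows that `HasEulerNumber` is well defined.
-/

open scoped MatrixGroups LinearAlgebra.Projectivization

namespace Pool.Agent.Lib.Pb43922

open Real

/-- every projective transformation has a lift -/
theorem exists_lift (P : PSL(2, ℝ)) : ∃ F : ℝ ≃o ℝ, IsLift P F := by
  obtain ⟨A, rfl⟩ := QuotientGroup.mk_surjective P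
  obtain ⟨t, ht⟩ : ∃ t : ℝ, frob (dia t) = frob A := by
    have h2 : 0 ≤ frob A - 2 := by linarith [two_le_frob A]
    refine ⟨arsinh (√(frob A - 2) / 2), ?_⟩
    have h1 : frob (dia (arsinh (√(frob A - 2) / 2))) =
        4 * sinh (arsinh (√(frob A - 2) / 2)) ^ 2 + 2 := by
      have e00 : dia (arsinh (√(frob A - 2) / 2)) 0 0 = exp (arsinh (√(frob A - 2) / 2)) := rfl
      have e01 : dia (arsinh (√(frob A - 2) / 2)) 0 1 = 0 := rfl
      have e10 : dia (arsinh (√(frob A - 2) / 2)) 1 0 = 0 := rfl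
      have e11 : dia (arsinh (√(frob A - 2) / 2)) 1 1 = exp (-arsinh (√(frob A - 2) / 2)) := rfl
      rw [frob, e00, e01, e10, e11, sinh_eq]
      have := exp_add (arsinh (√(frob A - 2) / 2)) (-arsinh (√(frob A - 2) / 2))
      rw [add_neg_cancel, exp_zero] at this
      linear_combination (-2 : ℝ) * this
    rw [h1, sinh_arsinh, div_pow, sq_sqrt h2]
    ring
  obtain ⟨φ, φ', h⟩ := exists_rot_mul_rot ht
  refine ⟨T φ * D t * T φ', ?_⟩
  rw [← h]
  exact ((isLift_T φ).mul (isLift_D t)).mul (isLift_T φ')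

theorem comm_eq_of_lifts {P Q : PSL(2, ℝ)} {F F' G G' : ℝ ≃o ℝ} (hF : IsLift P F)
    (hF' : IsLift P F') (hG : IsLift Q G) (hG' : IsLift Q G') :
    F * G * F⁻¹ * G⁻¹ = F' * G' * F'⁻¹ * G'⁻¹ := by
  obtain ⟨k, rfl⟩ := hF.exists_int hF'
  obtain ⟨l, rfl⟩ := hG.exists_int hG'
  have c1 := (hF'.comm_T_int l).eq
  have c2 := (hG'.comm_T_int k).eq
  have c4 : T (k * (2 * π)) * T (l * (2 * π)) = T (l * (2 * π)) * T (k * (2 * π)) := by
    rw [T_mul, T_mul, add_comm]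
  set a := T (k * (2 * π))
  set b := T (l * (2 * π))
  have c3 : a⁻¹ * b⁻¹ = b⁻¹ * a⁻¹ := by rw [← mul_inv_rev, ← mul_inv_rev, c4]
  have d1 : a⁻¹ * G'⁻¹ = G'⁻¹ * a⁻¹ := by rw [← mul_inv_rev, ← mul_inv_rev, c2]
  calc a * F' * (b * G') * (a * F')⁻¹ * (b * G')⁻¹
      = a * (F' * b) * G' * F'⁻¹ * (a⁻¹ * G'⁻¹) * b⁻¹ := by group
    _ = a * (b * F') * G' * F'⁻¹ * (G'⁻¹ * a⁻¹) * b⁻¹ := by rw [c1, d1]
    _ = (a * b) * (F' * G' * F'⁻¹ * G'⁻¹) * (a⁻¹ * b⁻¹) := by group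
    _ = (b * a) * (F' * G' * F'⁻¹ * G'⁻¹) * (a⁻¹ * b⁻¹) := by rw [c4]
    _ = b * (a * (F' * G' * F'⁻¹ * G'⁻¹)) * (a⁻¹ * b⁻¹) := by group
    _ = b * ((F' * G' * F'⁻¹ * G'⁻¹) * a) * (a⁻¹ * b⁻¹) := by
        have : IsLift (P * Q * P⁻¹ * Q⁻¹) (F' * G' * F'⁻¹ * G'⁻¹) := hF'.comm hG'
        rw [(this.comm_T_int k).eq]
    _ = (b * (F' * G' * F'⁻¹ * G'⁻¹)) * b⁻¹ := by group
    _ = ((F' * G' * F'⁻¹ * G'⁻¹) * b) * b⁻¹ := by
        have : IsLift (P * Q * P⁻¹ * Q⁻¹) (F' * G' * F'⁻¹ * G'⁻¹) := hF'.comm hG'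
        rw [(this.comm_T_int l).eq]
    _ = _ := by group

/-- The Euler number of a representation exists and is unique. -/
theorem existsUnique_eulerNumber {g : ℕ} (ρ : SurfaceGroup g →* PSL(2, ℝ)) :
    ∃! e : ℤ, HasEulerNumber ρ e := by
  choose F hF using fun i : Fin g => exists_lift (ρ (genA i))
  choose G hG using fun i : Fin g => exists_lift (ρ (genB i))
  have h1 := IsLift.ofFn_prod (fun i => (hF i).comm (hG i))
  have h2 : (List.ofFn fun i : Fin g => ρ (genA i) * ρ (genB i) * (ρ (genA i))⁻¹ *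
      (ρ (genB i))⁻¹).prod = 1 := by
    have h3 : (PresentedGroup.mk {surfaceRelator g} (surfaceRelator g) : SurfaceGroup g) = 1 :=
      PresentedGroup.one_of_mem rfl
    have h4 := congrArg ρ h3
    rw [map_one] at h4
    have h5 : PresentedGroup.mk {surfaceRelator g} (surfaceRelator g) =
        (List.ofFn fun i : Fin g => (genA i * genB i * (genA i)⁻¹ * (genB i)⁻¹ :
          SurfaceGroup g)).prod := by
      have : surfaceRelator g = (List.ofFn fun i : Fin g =>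
          (FreeGroup.of (Sum.inl i) * FreeGroup.of (Sum.inr i) *
          (FreeGroup.of (Sum.inl i))⁻¹ * (FreeGroup.of (Sum.inr i))⁻¹ :
          FreeGroup (Fin g ⊕ Fin g))).prod := rfl
      have h6 := congrArg (PresentedGroup.mk {surfaceRelator g}) this
      rw [h6, map_list_prod, List.map_ofFn]
      rfl
    rw [h5, map_list_prod, List.map_ofFn] at h4
    rw [← h4]
    congr 1
    congr 1
    ext i
    simp
  rw [h2] at h1
  obtain ⟨e, he⟩ := isLift_one_iff h1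
  refine ⟨e, ⟨F, G, hF, hG, fun θ => by rw [he, T_apply]⟩, ?_⟩
  rintro e' ⟨F', G', hF', hG', h'⟩
  have h5 : (fun i => F i * G i * (F i)⁻¹ * (G i)⁻¹) =
      fun i => F' i * G' i * (F' i)⁻¹ * (G' i)⁻¹ := by
    funext i
    exact comm_eq_of_lifts (hF i) (hF' i) (hG i) (hG' i)
  have h6 := h' 0
  rw [← h5, he, T_apply, zero_add, zero_add] at h6
  have h7 : (e' : ℝ) = e := by
    have := mul_right_cancel₀ two_pi_ne h6
    exact this.symm
  exact_mod_cast h7

end Pool.Agent.Lib.Pb43922
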