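import Pool.Agent.Lib.Pb43922.Std

open scoped MatrixGroups LinearAlgebra.Projectivization

namespace Pool.Agent.Lib.Pb43922

open Real

theorem AdmissibleStd.neg {e : ℤ} {ε : ℝ} {g : ℕ} (h : AdmissibleStd e ε g) :
    AdmissibleStd (-e) ε g := by
  obtain ⟨ρ, ⟨F, G, hF, hG, hprod⟩, hnear⟩ := h
  have h1 : (List.ofFn fun i => F i * G i * (F i)⁻¹ * (G i)⁻¹).prod = T (e * (2 * π)) := by
    ext θ; rw [hprod, T_apply]
  have h2 := ofFn_comm_inv F G
  rw [h1, T_inv] at h2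
  obtain ⟨ρ', hA, hB, he⟩ := exists_rep (e := -e) (F := fun i => G (Fin.rev i))
    (G := fun i => F (Fin.rev i)) (P := fun i => ρ (genB (Fin.rev i)))
    (Q := fun i => ρ (genA (Fin.rev i))) (fun i => hG _) (fun i => hF _)
    (by rw [h2]; congr 1; push_cast; ring)
  refine ⟨ρ', he, fun i => ?_⟩
  rw [hA, hB]
  exact ⟨(hnear _).2, (hnear _).1⟩

theorem exists_cosh_eq {r : ℝ} (hr : 1 ≤ r) : ∃ s : ℝ, 0 ≤ s ∧ cosh s = r := by
  refine ⟨arsinh (√(r ^ 2 - 1)), arsinh_nonneg_iff.2 (sqrt_nonneg _), ?_⟩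
  have h1 := cosh_sq (arsinh (√(r ^ 2 - 1)))
  rw [sinh_arsinh, sq_sqrt (by nlinarith)] at h1
  have h2 : cosh (arsinh (√(r ^ 2 - 1))) ^ 2 = r ^ 2 := by linarith
  exact (pow_left_inj₀ (cosh_pos _).le (by linarith) (by norm_num)).1 h2

theorem std_upper {E n : ℕ} (hE : 1 ≤ E) (hn : 8 * E ≤ n) :
    AdmissibleStd (-(E : ℤ)) (4 * E / n) n := by
  have hE' : (1 : ℝ) ≤ E := by exact_mod_cast hE
  have hn' : 8 * (E : ℝ) ≤ n := by exact_mod_cast hn
  have hn0 : (0 : ℝ) < n := by linarith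
  have hpi := pi_pos
  have hpi4 : π < 3.15 := pi_lt_d2
  set x : ℝ := π * (E + 1 : ℕ) / n with hx
  have hxpos : 0 < x := by rw [hx]; positivity
  have hx4 : x ≤ π / 4 := by
    rw [hx, div_le_div_iff₀ hn0 (by norm_num)]; push_cast; nlinarith
  have hxE : x ≤ 2 * π * E / n := by
    rw [hx, div_le_div_iff₀ hn0 hn0]; push_cast
    have : π * (E + 1) ≤ 2 * π * E := by nlinarith
    nlinarith
  have hcosx : 0.7 ≤ cos x := by
    have h1 : cos (π / 4) ≤ cos x := cos_le_cos_of_nonneg_of_le_pi hxpos.le (by linarith) hx4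
    rw [cos_pi_div_four] at h1
    have : (1.4 : ℝ) ≤ √2 := by
      rw [show (1.4 : ℝ) = √(1.4 ^ 2) by rw [sqrt_sq]; norm_num]
      exact sqrt_le_sqrt (by norm_num)
    linarith
  have hcosn : cos x ≤ cos (π / n) := by
    apply cos_le_cos_of_nonneg_of_le_pi (by positivity) (by linarith)
    rw [hx]
    apply div_le_div_of_nonneg_right _ hn0.le
    push_cast; nlinarith
  have hcosn1 : cos (π / n) ≤ 1 := cos_le_one _
  have hcx : 0 < cos x := by linarith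
  obtain ⟨s4, hs40, hs4⟩ := exists_cosh_eq (r := cos (π / n) / cos x)
    ((one_le_div hcx).2 hcosn)
  set s := s4 / 4 with hs
  have hs4' : 4 * s = s4 := by rw [hs]; ring
  have hs0 : 0 ≤ s := by rw [hs]; positivity
  have hcosh : cosh (4 * s) * cos (π * (E + 1 : ℕ) / n) = cos (π / n) := by
    rw [hs4', hs4]
    exact div_mul_cancel₀ _ (ne_of_gt hcx)
  obtain ⟨F, G, P, Q, hF, hG, hF1, hG1, hprod⟩ := std_tuple (n := n) (k := E + 1) (by omega)
    (by omega) hcosh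
  -- the estimate
  have hcs : cosh (4 * s) = 1 + 8 * (sinh s ^ 2 * cosh s ^ 2) := by
    have e1 : cosh (4 * s) = cosh (2 * (2 * s)) := by congr 1; ring
    rw [e1, cosh_two_mul, cosh_sq (2 * s), sinh_two_mul]
    ring
  have hbound : 8 * sinh s ^ 2 ≤ cosh (4 * s) - 1 := by
    rw [hcs]
    have h1 : 1 ≤ cosh s ^ 2 := by have := cosh_sq s; nlinarith [sq_nonneg (sinh s)]
    nlinarith [sq_nonneg (sinh s)]
  have hbound2 : cosh (4 * s) - 1 ≤ x ^ 2 * (5 / 7) := by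
    rw [hs4', hs4, div_sub_one hcx.ne', div_le_iff₀ hcx]
    have h1 : 1 - x ^ 2 / 2 ≤ cos x := one_sub_sq_div_two_le_cos
    nlinarith [sq_nonneg x]
  have hfin : 2 * |sinh s| ≤ 4 * E / n := by
    rw [abs_of_nonneg (sinh_nonneg_iff.2 hs0)]
    have h1 : (2 * sinh s) ^ 2 ≤ (4 * E / n) ^ 2 := by
      have h2 : (2 * sinh s) ^ 2 ≤ x ^ 2 * (5 / 14) := by
        have : (2 * sinh s) ^ 2 = (8 * sinh s ^ 2) / 2 := by ring
        rw [this]
        have := hbound.trans hbound2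
        linarith
      have h3 : x ^ 2 ≤ (2 * π * E / n) ^ 2 := by
        apply pow_le_pow_left₀ hxpos.le hxE
      have h4 : (2 * π * E / n) ^ 2 * (5 / 14) ≤ (4 * E / n) ^ 2 := by
        have e1 : (2 * π * E / n) ^ 2 * (5 / 14) = (4 * π ^ 2 * (5 / 14)) * (E / n) ^ 2 := by ring
        have e2 : (4 * E / n : ℝ) ^ 2 = 16 * (E / n) ^ 2 := by ring
        rw [e1, e2]
        apply mul_le_mul_of_nonneg_right _ (sq_nonneg _)
        nlinarith
      linarith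
    exact le_of_sq_le_sq h1 (by positivity)
  obtain ⟨ρ, hA, hB, he⟩ := exists_rep (e := -(E : ℤ)) hF hG
    (by rw [hprod]; congr 1; push_cast; ring)
  refine ⟨ρ, he, fun i => ?_⟩
  rw [hA, hB]
  exact ⟨nearU1_of_lift (hF i) (φ := π) fun x => (hF1 i x).trans hfin,
    nearU1_of_lift (hG i) (φ := π) fun x => (hG1 i x).trans hfin⟩

theorem NearU1.mono {P : PSL(2, ℝ)} {ε ε' : ℝ} (h : NearU1 ε P) (hε : ε ≤ ε') : NearU1 ε' P := by
  obtain ⟨R, hR, h⟩ := h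
  exact ⟨R, hR, h.trans hε⟩

theorem AdmissibleStd.mono {e : ℤ} {ε ε' : ℝ} {g : ℕ} (h : AdmissibleStd e ε g) (hε : ε ≤ ε') :
    AdmissibleStd e ε' g := by
  obtain ⟨ρ, h1, h2⟩ := h
  exact ⟨ρ, h1, fun i => ⟨(h2 i).1.mono hε, (h2 i).2.mono hε⟩⟩

theorem std_upper' {e : ℤ} (he : e ≠ 0) {n : ℕ} (hn : 8 * e.natAbs ≤ n) :
    AdmissibleStd e (4 * |(e : ℝ)| / n) n := by
  have h1 : 1 ≤ e.natAbs := Int.natAbs_pos.2 he
  have h := std_upper h1 hn
  have h2 : ((e.natAbs : ℕ) : ℝ) = |(e : ℝ)| := by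
    rw [Nat.cast_natAbs, Int.cast_abs]
  rw [h2] at h
  rcases Int.natAbs_eq e with h3 | h3
  · have := h.neg
    rw [neg_neg, ← h3] at this
    exact this
  · rw [← h3] at h
    exact h

theorem disp_prod {n : ℕ} (W : Fin n → (ℝ ≃o ℝ)) {δ : ℝ} (h : ∀ i x, |W i x - x| ≤ δ) (x : ℝ) :
    |(List.ofFn W).prod x - x| ≤ n * δ := by
  induction n generalizing x with
  | zero => simp
  | succ n ih =>
    rw [ofFn_prod_succ, RelIso.mul_apply]
    have h1 := ih (fun i => W i.castSucc) (fun i x => h _ x) (W (Fin.last n) x)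
    have h2 := h (Fin.last n) x
    rw [abs_le] at h1 h2 ⊢
    push_cast
    constructor <;> linarith [h1.1, h1.2, h2.1, h2.2]

theorem inv_near {F : ℝ ≃o ℝ} {φ ε : ℝ} (h : ∀ x, |F x - (x + φ)| < ε) (y : ℝ) :
    |F⁻¹ y - (y - φ)| < ε := by
  have h1 := h (F⁻¹ y)
  rw [RelIso.apply_inv_self] at h1
  rw [← abs_neg]
  convert h1 using 2
  ring

theorem comm_disp {F G : ℝ ≃o ℝ} {φ γ ε : ℝ} (hF : ∀ x, |F x - (x + φ)| < ε)
    (hG : ∀ x, |G x - (x + γ)| < ε) (x : ℝ) :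
    |(F * G * F⁻¹ * G⁻¹) x - x| ≤ 4 * ε := by
  simp only [RelIso.mul_apply]
  have h1 := inv_near hG x
  have h2 := inv_near hF (G⁻¹ x)
  have h3 := hG (F⁻¹ (G⁻¹ x))
  have h4 := hF (G (F⁻¹ (G⁻¹ x)))
  rw [abs_lt] at h1 h2 h3 h4
  rw [abs_le]
  constructor <;> linarith [h1.1, h1.2, h2.1, h2.2, h3.1, h3.2, h4.1, h4.2]

theorem std_lower_aux {e : ℤ} {ε ε' : ℝ} {g : ℕ} (h : AdmissibleStd e ε g) (h1 : ε < ε')
    (h2 : ε' < π) : 2 * π * |(e : ℝ)| ≤ 4 * ε' * g := by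
  obtain ⟨ρ, ⟨F, G, hF, hG, hprod⟩, hnear⟩ := h
  have hA : ∀ i, ∃ φ : ℝ, ∀ x, |F i x - (x + φ)| < ε' := fun i =>
    exists_translation_near (hF i) (hnear i).1 h1 h2
  have hB : ∀ i, ∃ φ : ℝ, ∀ x, |G i x - (x + φ)| < ε' := fun i =>
    exists_translation_near (hG i) (hnear i).2 h1 h2
  choose φ hφ using hA
  choose γ hγ using hB
  have h3 := disp_prod (fun i => F i * G i * (F i)⁻¹ * (G i)⁻¹) (δ := 4 * ε')
    (fun i x => comm_disp (hφ i) (hγ i) x) 0
  rw [hprod] at h3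
  have h4 : |(0 : ℝ) + e * (2 * π) - 0| = 2 * π * |(e : ℝ)| := by
    rw [zero_add, sub_zero, abs_mul, abs_of_pos (by positivity : (0 : ℝ) < 2 * π)]; ring
  rw [h4] at h3
  linarith

theorem std_lower {e : ℤ} {ε : ℝ} {g : ℕ} (h : AdmissibleStd e ε g) (hε : ε < π) :
    2 * π * |(e : ℝ)| ≤ 4 * ε * g := by
  by_contra hcon
  push Not at hcon
  rcases Nat.eq_zero_or_pos g with hg | hg
  · have := std_lower_aux h (ε' := (ε + π) / 2) (by linarith) (by linarith)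
    rw [hg] at this hcon
    simp at this hcon
    have h2 : 0 < 2 * π * |(e : ℝ)| := by positivity
    linarith
  · have hg' : (0 : ℝ) < g := by exact_mod_cast hg
    set m := 2 * π * |(e : ℝ)| / (4 * g) with hm
    have hεm : ε < m := by rw [hm, lt_div_iff₀ (by positivity)]; linarith
    obtain ⟨ε', h1, h2⟩ := exists_between (lt_min hε hεm)
    have h3 := std_lower_aux h h1 (h2.trans_le (min_le_left _ _))
    have h4 : ε' < m := h2.trans_le (min_le_right _ _)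
    rw [hm, lt_div_iff₀ (by positivity)] at h4
    linarith

/-- A quantity of size `O(1/ε)` does not satisfy the conjectured lower bound. -/
theorem no_quadratic_bound {G : ℝ → ℝ} {K a : ℝ} (hK : 0 < K) (ha : 0 < a)
    (hG : ∀ ε, 0 < ε → ε ≤ 1 / 2 → G ε ≤ K / ε) :
    ¬ ∃ c C ε₀ : ℝ, 0 < c ∧ 0 < ε₀ ∧ ∀ ε : ℝ, 0 < ε → ε < ε₀ →
      ∃ δ : ℝ, |δ| ≤ C * ε ^ 3 ∧ c * a / (ε ^ 2 + δ) ≤ G ε := by
  rintro ⟨c, C, ε₀, hc, hε₀, H⟩
  -- choose ε small
  set m := min (min (1 / 2) (ε₀ / 2)) (min (1 / (2 * (|C| + 1))) (c * a / (3 * K))) with hm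
  have hm0 : 0 < m := by
    rw [hm]
    refine lt_min (lt_min (by norm_num) (by linarith)) (lt_min (by positivity) (by positivity))
  have h1 : m ≤ 1 / 2 := (min_le_left _ _).trans (min_le_left _ _)
  have h2 : m ≤ ε₀ / 2 := (min_le_left _ _).trans (min_le_right _ _)
  have h3 : m ≤ 1 / (2 * (|C| + 1)) := (min_le_right _ _).trans (min_le_left _ _)
  have h4 : m ≤ c * a / (3 * K) := (min_le_right _ _).trans (min_le_right _ _)
  obtain ⟨δ, hδ, hle⟩ := H m hm0 (by linarith)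
  have h5 := hle.trans (hG m hm0 h1)
  have hCm : |C| * m ≤ 1 / 2 := by
    have : m * (2 * (|C| + 1)) ≤ 1 := by rwa [le_div_iff₀ (by positivity)] at h3
    nlinarith
  have hδ2 : |δ| ≤ m ^ 2 / 2 := by
    have : C * m ^ 3 ≤ |C| * m * m ^ 2 := by
      have := mul_le_mul_of_nonneg_right (le_abs_self C) (by positivity : 0 ≤ m ^ 3)
      linarith [this, (by ring : |C| * m ^ 3 = |C| * m * m ^ 2)]
    have h6 : |C| * m * m ^ 2 ≤ 1 / 2 * m ^ 2 :=
      mul_le_mul_of_nonneg_right hCm (by positivity)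
    linarith
  rw [abs_le] at hδ2
  have hpos : 0 < m ^ 2 + δ := by nlinarith [hδ2.1, sq_pos_of_pos hm0]
  rw [div_le_div_iff₀ hpos hm0] at h5
  have h6 : m ^ 2 + δ ≤ 3 / 2 * m ^ 2 := by linarith [hδ2.2]
  have h7 : c * a * m ≤ K * (3 / 2 * m ^ 2) :=
    h5.trans (mul_le_mul_of_nonneg_left h6 hK.le)
  have h8 : c * a ≤ K * (3 / 2 * m) := by
    have : c * a * m ≤ (K * (3 / 2 * m)) * m := by linarith [h7, (by ring : K * (3 / 2 * m ^ 2) = (K * (3 / 2 * m)) * m)]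
    exact le_of_mul_le_mul_right this hm0
  have h9 : m * (3 * K) ≤ c * a := by rwa [le_div_iff₀ (by positivity)] at h4
  have h10 : 0 < c * a := by positivity
  nlinarith

/-- standard generating sets are generating sets -/
theorem AdmissibleStd.admissible {e : ℤ} {ε : ℝ} {g : ℕ} (h : AdmissibleStd e ε g) :
    Admissible e ε g := by
  obtain ⟨ρ, he, hn⟩ := h
  refine ⟨Set.range (PresentedGroup.of (rels := {surfaceRelator g})), ρ,
    PresentedGroup.closure_range_of _, he, ?_⟩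
  rintro _ ⟨i, rfl⟩
  cases i with
  | inl i => exact (hn i).1
  | inr i => exact (hn i).2

theorem std_final {e : ℤ} (he : e ≠ 0) {ε : ℝ} (h0 : 0 < ε) (h1 : ε ≤ 1 / 2) :
    AdmissibleStd e ε (minGenusStd e ε) ∧ minGenus e ε ≤ minGenusStd e ε ∧
      π * |(e : ℝ)| / (2 * ε) ≤ minGenusStd e ε ∧
      (minGenusStd e ε : ℝ) < 4 * |(e : ℝ)| / ε + 1 := by
  have he' : (1 : ℝ) ≤ |(e : ℝ)| := by
    rw [← Int.cast_abs]
    exact_mod_cast Int.one_le_abs he
  set n : ℕ := ⌈4 * |(e : ℝ)| / ε⌉₊ with hn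
  have hn1 : 4 * |(e : ℝ)| / ε ≤ n := Nat.le_ceil _
  have hn2 : (n : ℝ) < 4 * |(e : ℝ)| / ε + 1 := Nat.ceil_lt_add_one (by positivity)
  have h8 : 8 * |(e : ℝ)| ≤ 4 * |(e : ℝ)| / ε := by
    rw [le_div_iff₀ h0]; nlinarith
  have h8n : 8 * e.natAbs ≤ n := by
    have h2 : ((e.natAbs : ℕ) : ℝ) = |(e : ℝ)| := by
      rw [Nat.cast_natAbs, Int.cast_abs]
    have : (8 * e.natAbs : ℝ) ≤ n := by rw [h2]; linarith
    exact_mod_cast this
  have hnpos : (0 : ℝ) < n := by linarith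
  have hadm : AdmissibleStd e ε n := by
    refine (std_upper' he h8n).mono ?_
    rw [div_le_iff₀ hnpos]
    rw [div_le_iff₀ h0] at hn1
    linarith
  have hmin : AdmissibleStd e ε (minGenusStd e ε) :=
    Nat.sInf_mem (s := {g : ℕ | AdmissibleStd e ε g}) ⟨n, hadm⟩
  refine ⟨hmin, Nat.sInf_le hmin.admissible, ?_, ?_⟩
  · have := std_lower hmin (by linarith [pi_gt_three])
    rw [div_le_iff₀ (by positivity)]
    linarith
  · have : minGenusStd e ε ≤ n := Nat.sInf_le hadm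
    have : (minGenusStd e ε : ℝ) ≤ n := by exact_mod_cast this
    linarith

end Pool.Agent.Lib.Pb43922
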