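import Pool.Agent.Lib.Pb43922.Kak
import Pool.Agent.Lib.Pb43922.StdFinal

open scoped MatrixGroups LinearAlgebra.Projectivization Topology

namespace Pool.Agent.Lib.Pb43922

open Real

theorem one_mem_U1 : (1 : PSL(2, ℝ)) ∈ U1 :=
  ⟨1, by rw [Matrix.mem_orthogonalGroup_iff]; simp, rfl⟩

theorem abs_arg_le_of {z : ℂ} {η : ℝ} (hη : η ≤ 1 / 2) (h1 : |z.re - 1| ≤ η) (h2 : |z.im| ≤ η) :
    |z.arg| ≤ 2 * η := by
  have hre : 1 / 2 ≤ z.re := by
    have := (abs_le.1 h1).1
    linarith
  have hre0 : 0 < z.re := by linarith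
  have hlt : |z.arg| < π / 2 := Complex.abs_arg_lt_pi_div_two_iff.2 (Or.inl hre0)
  have htan : tan z.arg = z.im / z.re := Complex.tan_arg _
  have h3 : |z.arg| ≤ |tan z.arg| := by
    rcases le_or_gt 0 z.arg with hx | hx
    · rw [abs_of_nonneg hx] at hlt ⊢
      exact (le_tan hx hlt).trans (le_abs_self _)
    · rw [abs_of_neg hx] at hlt ⊢
      have := le_tan (by linarith : 0 ≤ -z.arg) hlt
      rw [tan_neg] at this
      exact this.trans (neg_le_abs _)
  refine h3.trans ?_
  rw [htan, abs_div, abs_of_pos hre0, div_le_iff₀ hre0]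
  nlinarith [abs_nonneg z.im]

theorem near_of_entries {A : SL(2, ℝ)} {η : ℝ} (hη : 4 * η ≤ 1 / 2) (h00 : |A 0 0 - 1| ≤ η)
    (h01 : |A 0 1| ≤ η) (h10 : |A 1 0| ≤ η) (h11 : |A 1 1 - 1| ≤ η) :
    NearU1 (16 * η) (QuotientGroup.mk A : PSL(2, ℝ)) := by
  refine ⟨1, one_mem_U1, supDist_le fun x => ?_⟩
  obtain ⟨θ, rfl⟩ := pt_surjective x
  rw [one_smul, Matrix.ProjectiveSpecialLinearGroup.smul_proj_mk, smul_pt]
  refine (circleDist_pt_le _ _).trans ?_
  have hη0 : 0 ≤ η := (abs_nonneg _).trans h00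
  have hcs := cos_sq_add_sin_sq (θ / 2)
  have hc := abs_cos_le_one (θ / 2)
  have hs := abs_sin_le_one (θ / 2)
  have hmul : ∀ {a b c : ℝ}, |a| ≤ η → |b| ≤ 1 → |c| ≤ 1 → |a * b * c| ≤ η := by
    intro a b c h1 h2 h3
    rw [abs_mul, abs_mul]
    calc |a| * |b| * |c| ≤ η * 1 * 1 := by gcongr
      _ = η := by ring
  have hre : |(wq A θ).re - 1| ≤ 4 * η := by
    have e : (wq A θ).re - 1 = (A 0 0 - 1) * cos (θ / 2) * cos (θ / 2) +
        A 0 1 * sin (θ / 2) * cos (θ / 2) + A 1 0 * cos (θ / 2) * sin (θ / 2) +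
        (A 1 1 - 1) * sin (θ / 2) * sin (θ / 2) := by
      simp only [wq]; linear_combination hcs
    rw [e]
    refine (abs_add_le _ _).trans ?_
    have := abs_add_le ((A 0 0 - 1) * cos (θ / 2) * cos (θ / 2) +
        A 0 1 * sin (θ / 2) * cos (θ / 2)) (A 1 0 * cos (θ / 2) * sin (θ / 2))
    have := abs_add_le ((A 0 0 - 1) * cos (θ / 2) * cos (θ / 2))
        (A 0 1 * sin (θ / 2) * cos (θ / 2))
    linarith [hmul h00 hc hc, hmul h01 hs hc, hmul h10 hc hs, hmul h11 hs hs]
  have him : |(wq A θ).im| ≤ 4 * η := by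
    have e : (wq A θ).im = A 1 0 * cos (θ / 2) * cos (θ / 2) +
        (A 1 1 - 1) * sin (θ / 2) * cos (θ / 2) + (-(A 0 0 - 1)) * cos (θ / 2) * sin (θ / 2) +
        (-(A 0 1)) * sin (θ / 2) * sin (θ / 2) := by
      simp only [wq]; ring
    rw [e]
    refine (abs_add_le _ _).trans ?_
    have := abs_add_le (A 1 0 * cos (θ / 2) * cos (θ / 2) +
        (A 1 1 - 1) * sin (θ / 2) * cos (θ / 2)) ((-(A 0 0 - 1)) * cos (θ / 2) * sin (θ / 2))
    have := abs_add_le (A 1 0 * cos (θ / 2) * cos (θ / 2))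
        ((A 1 1 - 1) * sin (θ / 2) * cos (θ / 2))
    have h00' : |(-(A 0 0 - 1))| ≤ η := by rwa [abs_neg]
    have h01' : |(-(A 0 1))| ≤ η := by rwa [abs_neg]
    linarith [hmul h10 hc hc, hmul h11 hs hc, hmul h00' hc hs, hmul h01' hs hs]
  have := abs_arg_le_of hη hre him
  rw [show θ + 2 * (wq A θ).arg - θ = 2 * (wq A θ).arg by ring, abs_mul]
  simp only [Nat.abs_ofNat]
  linarith

theorem eventually_near {ε : ℝ} (hε : 0 < ε) :
    ∀ᶠ A : SL(2, ℝ) in 𝓝 1, NearU1 ε (QuotientGroup.mk A : PSL(2, ℝ)) := by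
  have h : ∀ i j : Fin 2, Continuous fun A : SL(2, ℝ) => A i j := fun i j =>
    (continuous_apply j).comp (Matrix.SpecialLinearGroup.continuous_apply _ continuous_id i)
  set η := min (1 / 8) (ε / 16) with hη
  have hη0 : 0 < η := lt_min (by norm_num) (by positivity)
  have e00 : ∀ᶠ A : SL(2, ℝ) in 𝓝 1, |A 0 0 - 1| < η := by
    refine ((h 0 0).sub continuous_const).abs.continuousAt.eventually_lt continuousAt_const ?_
    simpa using hη0
  have e01 : ∀ᶠ A : SL(2, ℝ) in 𝓝 1, |A 0 1| < η := by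
    refine ((h 0 1)).abs.continuousAt.eventually_lt continuousAt_const ?_
    simpa using hη0
  have e10 : ∀ᶠ A : SL(2, ℝ) in 𝓝 1, |A 1 0| < η := by
    refine ((h 1 0)).abs.continuousAt.eventually_lt continuousAt_const ?_
    simpa using hη0
  have e11 : ∀ᶠ A : SL(2, ℝ) in 𝓝 1, |A 1 1 - 1| < η := by
    refine ((h 1 1).sub continuous_const).abs.continuousAt.eventually_lt continuousAt_const ?_
    simpa using hη0
  filter_upwards [e00, e01, e10, e11] with A h1 h2 h3 h4
  refine (near_of_entries (η := η) ?_ h1.le h2.le h3.le h4.le).mono ?_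
  · have := min_le_left (1 / 8) (ε / 16); linarith
  · have := min_le_right (1 / 8) (ε / 16); linarith

theorem rot_add (a b : ℝ) : rot a * rot b = rot (a + b) := by
  ext i j
  rw [rot_mul_apply]
  have e : (a + b) / 2 = a / 2 + b / 2 := by ring
  fin_cases i <;> fin_cases j <;> simp [rot, e, cos_add, sin_add] <;> ring

theorem rot_zero : rot 0 = 1 := by
  ext i j
  fin_cases i <;> fin_cases j <;> simp [rot]

theorem rot_neg (a : ℝ) : (rot a)⁻¹ = rot (-a) := by
  rw [inv_eq_iff_mul_eq_one, rot_add, add_neg_cancel, rot_zero]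

theorem mk_rot_int (m k : ℤ) (φ₀ : ℝ) :
    (QuotientGroup.mk (rot (m • φ₀ + k • (2 * π))) : PSL(2, ℝ)) =
      (QuotientGroup.mk (rot φ₀) : PSL(2, ℝ)) ^ m := by
  have h1 : IsLift ((QuotientGroup.mk (rot φ₀) : PSL(2, ℝ)) ^ m) (T (m • φ₀)) := by
    have key : ∀ n : ℕ, IsLift ((QuotientGroup.mk (rot φ₀) : PSL(2, ℝ)) ^ n) (T (n * φ₀)) := by
      intro n
      rw [← T_pow]
      exact (isLift_T φ₀).pow n
    cases m with
    | ofNat n => simpa using key n
    | negSucc n =>
      rw [zpow_negSucc]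
      have := (key (n + 1)).inv
      rw [T_inv] at this
      convert this using 2
      push_cast
      simp
      ring
  have h2 : IsLift ((QuotientGroup.mk (rot φ₀) : PSL(2, ℝ)) ^ m) (T (m • φ₀ + k • (2 * π))) := by
    have := h1.mul (isLift_T_int k)
    rw [mul_one, T_mul] at this
    simpa using this
  exact (isLift_T _).unique h2

/-- **Generation lemma.** If the image of `ρ` contains an irrational rotation and an element
which is not a rotation, then the elements whose image is near `U(1)` generate the group. -/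
theorem generation {Γ : Type*} [Group Γ] (ρ : Γ →* PSL(2, ℝ)) {r a : Γ} {φ₀ : ℝ}
    (hr : ρ r = (QuotientGroup.mk (rot φ₀) : PSL(2, ℝ))) (hirr : Irrational (φ₀ / (2 * π)))
    (ha : ρ a ∉ U1) {ε : ℝ} (hε : 0 < ε) :
    Subgroup.closure {s : Γ | NearU1 ε (ρ s)} = ⊤ := by
  set H := Subgroup.closure {s : Γ | NearU1 ε (ρ s)} with hH
  set K : Subgroup SL(2, ℝ) := (H.map ρ).comap (QuotientGroup.mk' (Subgroup.center SL(2, ℝ)))
    with hK
  set C := K.topologicalClosure with hC
  have hCclosed : IsClosed (C : Set SL(2, ℝ)) := K.isClosed_topologicalClosure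
  have hKC : K ≤ C := K.le_topologicalClosure
  have memK : ∀ {A : SL(2, ℝ)} {s : Γ}, s ∈ H → ρ s = (QuotientGroup.mk A : PSL(2, ℝ)) →
      A ∈ K := by
    intro A s hs h
    rw [hK, Subgroup.mem_comap, Subgroup.mem_map]
    exact ⟨s, hs, h⟩
  have hnear := eventually_near hε
  -- conjugates of the rotations lie in `C`
  have hconj : ∀ (γ : Γ) (S : SL(2, ℝ)), ρ γ = (QuotientGroup.mk S : PSL(2, ℝ)) →
      ∀ φ : ℝ, S * rot φ * S⁻¹ ∈ C := by
    intro γ S hγ
    let Φ : AddSubgroup ℝ :=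
      { carrier := {φ | S * rot φ * S⁻¹ ∈ C}
        add_mem' := by
          intro x y hx hy
          have := C.mul_mem hx hy
          simp only [Set.mem_ofPred_eq]
          rw [← rot_add]
          convert this using 1
          group
        zero_mem' := by
          simp only [Set.mem_ofPred_eq, rot_zero, mul_one, mul_inv_cancel]
          exact C.one_mem
        neg_mem' := by
          intro x hx
          have := C.inv_mem hx
          simp only [Set.mem_ofPred_eq]
          rw [← rot_neg]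
          convert this using 1
          group }
    have hcontS : Continuous fun φ : ℝ => S * rot φ * S⁻¹ :=
      (continuous_const.mul continuous_rot).mul continuous_const
    have hΦclosed : IsClosed (Φ : Set ℝ) := hCclosed.preimage hcontS
    have hsmall : ∀ᶠ φ : ℝ in 𝓝 0, NearU1 ε (QuotientGroup.mk (S * rot φ * S⁻¹) : PSL(2, ℝ)) := by
      have h0 : S * rot 0 * S⁻¹ = 1 := by rw [rot_zero]; group
      have : Filter.Tendsto (fun φ : ℝ => S * rot φ * S⁻¹) (𝓝 0) (𝓝 1) := by
        have := hcontS.tendsto 0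
        rwa [h0] at this
      exact this.eventually hnear
    have hΦdense : Dense (Φ : Set ℝ) := by
      apply AddSubgroup.dense_of_not_isolated_zero
      intro δ hδ
      obtain ⟨δ', hδ', hball⟩ := Metric.eventually_nhds_iff.1 hsmall
      have hd := dense_addSubgroupClosure_pair_iff.2 hirr
      obtain ⟨g, hg, hg0, hg1⟩ := hd.exists_between (lt_min hδ hδ')
      refine ⟨g, ?_, hg0, hg1.trans_le (min_le_left _ _)⟩
      obtain ⟨m, k, hmk⟩ := AddSubgroup.mem_closure_pair.1 hg
      have h1 : NearU1 ε (QuotientGroup.mk (S * rot g * S⁻¹) : PSL(2, ℝ)) := by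
        apply hball
        rw [Real.dist_eq, sub_zero, abs_of_pos hg0]
        exact hg1.trans_le (min_le_right _ _)
      have h2 : ρ (γ * r ^ m * γ⁻¹) = (QuotientGroup.mk (S * rot g * S⁻¹) : PSL(2, ℝ)) := by
        rw [map_mul, map_mul, map_zpow, map_inv, hγ, hr, ← mk_rot_int m k, hmk]
        rfl
      apply hKC
      refine memK (Subgroup.subset_closure ?_) h2
      rw [Set.mem_ofPred_eq, h2]
      exact h1
    have hΦtop : (Φ : Set ℝ) = Set.univ := by
      rw [← hΦclosed.closure_eq]; exact hΦdense.closure_eq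
    intro φ
    have : φ ∈ (Φ : Set ℝ) := by rw [hΦtop]; trivial
    exact this
  have hrot : ∀ φ, rot φ ∈ C := by
    intro φ
    have := hconj 1 1 (map_one ρ) φ
    simpa using this
  obtain ⟨S, hS⟩ := QuotientGroup.mk_surjective (ρ a)
  -- a non-rotation in `C`
  have hSf : 2 < frob S := by
    refine lt_of_le_of_ne (two_le_frob S) ?_
    intro h
    apply ha
    rw [← hS]
    refine ⟨S, ?_, rfl⟩
    have h1 : (S 0 0 - S 1 1) ^ 2 + (S 0 1 + S 1 0) ^ 2 = 0 := by
      rw [frob] at h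
      linear_combination -h - 2 * det_eq S
    have h2 : S 0 0 = S 1 1 := by nlinarith [sq_nonneg (S 0 0 - S 1 1), sq_nonneg (S 0 1 + S 1 0)]
    have h3 : S 0 1 = - S 1 0 := by nlinarith [sq_nonneg (S 0 0 - S 1 1), sq_nonneg (S 0 1 + S 1 0)]
    have hd := det_eq S
    rw [h2, h3] at hd
    rw [Matrix.mem_orthogonalGroup_iff]
    ext i j
    fin_cases i <;> fin_cases j <;> simp [Matrix.mul_apply, Fin.sum_univ_two, h2, h3] <;>
      linarith
  have hC2 : C = ⊤ := by
    refine eq_top_of_rot_mem hrot (hconj a S hS.symm π) ?_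
    have e : S * rot π * S⁻¹ = S * tr S * rot π := by
      have hinv : (S⁻¹ : SL(2, ℝ)) = rot (-π) * tr S * rot π := by
        rw [inv_eq_iff_mul_eq_one]
        ext i j
        have h1 : cos (-π / 2) = 0 := by rw [neg_div, cos_neg, cos_pi_div_two]
        have h2 : sin (-π / 2) = -1 := by rw [neg_div, sin_neg, sin_pi_div_two]
        have hd := det_eq S
        simp only [rot_mul_apply]
        fin_cases i <;> fin_cases j <;>
          simp [rot_00, rot_01, rot_10, rot_11, tr_00, tr_01, tr_10, tr_11, h1, h2] <;> linarith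
      rw [hinv]
      have : rot π * (rot (-π) * tr S * rot π) = tr S * rot π := by
        rw [← mul_assoc, ← mul_assoc, rot_add, add_neg_cancel, rot_zero, one_mul]
      rw [mul_assoc, this, mul_assoc]
    rw [e]
    have : frob (S * tr S * rot π) = frob S ^ 2 - 2 := by
      simp only [frob, rot_mul_apply, rot_00, rot_01, rot_10, rot_11, tr_00, tr_01, tr_10,
        tr_11, cos_pi_div_two, sin_pi_div_two]
      linear_combination (-2 * (S 0 0 * S 1 1 - S 0 1 * S 1 0) - 2) * det_eq S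
    rw [this]
    nlinarith
  -- conclusion
  rw [eq_top_iff]
  intro s _
  obtain ⟨B, hB⟩ := QuotientGroup.mk_surjective (ρ s)
  have hBC : B ∈ closure (K : Set SL(2, ℝ)) := by
    have : B ∈ C := by rw [hC2]; trivial
    exact this
  have hev : ∀ᶠ A : SL(2, ℝ) in 𝓝 B, NearU1 ε (QuotientGroup.mk (B⁻¹ * A) : PSL(2, ℝ)) := by
    have hcont : Continuous fun A : SL(2, ℝ) => B⁻¹ * A := continuous_const.mul continuous_id
    have : Filter.Tendsto (fun A : SL(2, ℝ) => B⁻¹ * A) (𝓝 B) (𝓝 1) := by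
      have := hcont.tendsto B
      rwa [inv_mul_cancel] at this
    exact this.eventually hnear
  obtain ⟨A, hA1, hA2⟩ := mem_closure_iff_nhds.1 hBC _ hev
  rw [hK] at hA2
  obtain ⟨h, hh, hhA⟩ := hA2
  have hmem : s⁻¹ * h ∈ H := by
    apply Subgroup.subset_closure
    rw [Set.mem_ofPred_eq, map_mul, map_inv, hhA, ← hB]
    exact hA1
  have : s = h * (s⁻¹ * h)⁻¹ := by group
  rw [this]
  exact H.mul_mem hh (H.inv_mem hmem)

end Pool.Agent.Lib.Pb43922
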