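import Pool.Agent.Lib.Pb43922.Lifts

open scoped MatrixGroups LinearAlgebra.Projectivization

namespace Pool.Agent.Lib.Pb43922

open Real

theorem wq_add_int (A : SL(2, ℝ)) (θ : ℝ) (k : ℤ) : wq A (θ + k * (2 * π)) = wq A θ := by
  have e1 : (θ + k * (2 * π)) / 2 = θ / 2 + k * π := by ring
  have h2 : ((-1 : ℝ) ^ k) * ((-1 : ℝ) ^ k) = 1 := by
    rw [← mul_zpow]; norm_num
  unfold wq
  rw [e1, cos_add_int_mul_pi, sin_add_int_mul_pi]
  congr 1
  · linear_combination ((A 0 0 * cos (θ / 2) + A 0 1 * sin (θ / 2)) * cos (θ / 2) +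
      (A 1 0 * cos (θ / 2) + A 1 1 * sin (θ / 2)) * sin (θ / 2)) * h2
  · linear_combination ((A 1 0 * cos (θ / 2) + A 1 1 * sin (θ / 2)) * cos (θ / 2) -
      (A 0 0 * cos (θ / 2) + A 0 1 * sin (θ / 2)) * sin (θ / 2)) * h2

theorem continuous_wq (A : SL(2, ℝ)) : Continuous (wq A) := by
  have h : Continuous (fun θ : ℝ => (((A 0 0 * cos (θ / 2) + A 0 1 * sin (θ / 2)) * cos (θ / 2) +
      (A 1 0 * cos (θ / 2) + A 1 1 * sin (θ / 2)) * sin (θ / 2) : ℝ) : ℂ) +
      (((A 1 0 * cos (θ / 2) + A 1 1 * sin (θ / 2)) * cos (θ / 2) -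
      (A 0 0 * cos (θ / 2) + A 0 1 * sin (θ / 2)) * sin (θ / 2) : ℝ) : ℂ) * Complex.I) := by
    refine Continuous.add (Complex.continuous_ofReal.comp (by fun_prop))
      (Continuous.mul (Complex.continuous_ofReal.comp (by fun_prop)) continuous_const)
  convert h using 1
  ext θ
  rw [wq, ← Complex.mk_eq_add_mul_I]

theorem exists_lift_of_re_pos (A : SL(2, ℝ)) (h : ∀ θ, 0 < (wq A θ).re) :
    ∃ F : ℝ ≃o ℝ, IsLift (QuotientGroup.mk A : PSL(2, ℝ)) F ∧
      ∀ θ, F θ = θ + 2 * (wq A θ).arg := by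
  set f : ℝ → ℝ := fun θ => θ + 2 * (wq A θ).arg with hf
  have hcont : Continuous f := by
    rw [continuous_iff_continuousAt]
    intro θ
    refine ContinuousAt.add continuousAt_id (ContinuousAt.mul continuousAt_const ?_)
    exact ContinuousAt.comp (Complex.continuousAt_arg (Or.inl (h θ)))
      (continuous_wq A).continuousAt
  have hinj : Function.Injective f := by
    intro s t hst
    have h1 : A • pt s = A • pt t := by
      rw [smul_pt, smul_pt]; exact congrArg pt hst
    have h2 : pt s = pt t := smul_left_cancel A h1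
    obtain ⟨k, hk⟩ := pt_eq_iff.1 h2
    simp only [hf] at hst
    rw [hk, wq_add_int] at hst
    rw [hk]; linarith
  have hbd : ∀ θ, |(wq A θ).arg| ≤ π := fun θ => Complex.abs_arg_le_pi _
  have hsurj : Function.Surjective f := by
    apply hcont.surjective
    · refine Filter.tendsto_atTop_mono (f := fun θ : ℝ => θ + (-(2 * π))) (fun θ => ?_)
        (Filter.tendsto_atTop_add_const_right _ _ Filter.tendsto_id)
      have := (abs_le.1 (hbd θ)).1
      simp only [hf]; linarith
    · refine Filter.tendsto_atBot_mono (fun θ => ?_)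
        (Filter.tendsto_atBot_add_const_right Filter.atBot (2 * π) Filter.tendsto_id)
      have := (abs_le.1 (hbd θ)).2
      simp only [hf, id]; linarith
  have hmono : StrictMono f := by
    rcases hcont.strictMono_of_inj hinj with h1 | h1
    · exact h1
    · exfalso
      have h2 : f (0 + (1 : ℤ) * (2 * π)) < f 0 := h1 (by simp; positivity)
      simp only [hf, wq_add_int] at h2
      have : (0 : ℝ) < π := pi_pos
      simp at h2
      linarith
  refine ⟨StrictMono.orderIsoOfSurjective f hmono hsurj, fun θ => ?_, fun θ => rfl⟩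
  rw [Matrix.ProjectiveSpecialLinearGroup.smul_proj_mk, smul_pt]
  rfl

/-- the diagonal matrix `diag (e^t, e^{-t})` -/
noncomputable def dia (t : ℝ) : SL(2, ℝ) :=
  ⟨!![exp t, 0; 0, exp (-t)], by rw [Matrix.det_fin_two_of, ← exp_add]; simp⟩

theorem wq_dia_re (t θ : ℝ) : (wq (dia t) θ).re = cosh t + sinh t * cos θ := by
  have h1 : cos θ = 2 * cos (θ / 2) ^ 2 - 1 := by
    rw [← cos_two_mul]; congr 1; ring
  have h2 := cos_sq_add_sin_sq (θ / 2)
  simp only [wq, dia]
  simp
  rw [h1, cosh_eq, sinh_eq]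
  linear_combination (exp (-t)) * h2

theorem wq_dia_im (t θ : ℝ) : (wq (dia t) θ).im = -(sinh t * sin θ) := by
  have h1 : sin θ = 2 * sin (θ / 2) * cos (θ / 2) := by
    rw [← sin_two_mul]; congr 1; ring
  simp only [wq, dia]
  simp
  rw [h1, sinh_eq]
  ring

theorem wq_dia_re_pos (t θ : ℝ) : 0 < (wq (dia t) θ).re := by
  rw [wq_dia_re]
  have h1 := cosh_sq t
  have h2 := neg_one_le_cos θ
  have h3 := cos_le_one θ
  have h4 := cosh_pos t
  have h5 : sinh t < cosh t := by
    have := exp_pos (-t); rw [← cosh_sub_sinh] at this; linarith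
  have h6 : -cosh t < sinh t := by
    have := exp_pos t; rw [← cosh_add_sinh] at this; linarith
  nlinarith [mul_nonneg (sub_nonneg.2 h3) (sub_nonneg.2 h5.le),
    mul_nonneg (by linarith : 0 ≤ 1 + cos θ) (by linarith : 0 ≤ cosh t + sinh t)]

/-- the lift of `dia t` fixing `0` (and `π`) -/
noncomputable def D (t : ℝ) : ℝ ≃o ℝ := (exists_lift_of_re_pos (dia t) (wq_dia_re_pos t)).choose

theorem isLift_D (t : ℝ) : IsLift (QuotientGroup.mk (dia t) : PSL(2, ℝ)) (D t) :=
  (exists_lift_of_re_pos (dia t) (wq_dia_re_pos t)).choose_spec.1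

theorem D_apply (t θ : ℝ) : D t θ = θ + 2 * (wq (dia t) θ).arg :=
  (exists_lift_of_re_pos (dia t) (wq_dia_re_pos t)).choose_spec.2 θ

theorem D_apply_zero (t : ℝ) : D t 0 = 0 := by
  rw [D_apply]
  have h : wq (dia t) 0 = ((exp t : ℝ) : ℂ) := by
    apply Complex.ext
    · rw [wq_dia_re, Complex.ofReal_re, cos_zero, mul_one, cosh_add_sinh]
    · rw [wq_dia_im, Complex.ofReal_im]; simp
  rw [h, Complex.arg_ofReal_of_nonneg (exp_pos t).le]; simp

theorem D_apply_pi (t : ℝ) : D t π = π := by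
  rw [D_apply]
  have h : wq (dia t) π = ((exp (-t) : ℝ) : ℂ) := by
    apply Complex.ext
    · rw [wq_dia_re, Complex.ofReal_re, cos_pi, ← cosh_sub_sinh]; ring
    · rw [wq_dia_im, Complex.ofReal_im]; simp
  rw [h, Complex.arg_ofReal_of_nonneg (exp_pos (-t)).le]; simp

theorem dia_mul (s t : ℝ) : dia s * dia t = dia (s + t) := by
  ext i j
  rw [Matrix.SpecialLinearGroup.coe_mul, Matrix.mul_apply, Fin.sum_univ_two]
  fin_cases i <;> fin_cases j <;> simp [dia, exp_add]
  ring

theorem D_mul (s t : ℝ) : D s * D t = D (s + t) := by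
  have h1 := (isLift_D s).mul (isLift_D t)
  rw [← QuotientGroup.mk_mul, dia_mul] at h1
  refine h1.eq_of_apply_eq (isLift_D (s + t)) (x := 0) ?_
  rw [RelIso.mul_apply, D_apply_zero, D_apply_zero, D_apply_zero]

theorem D_zero : D 0 = 1 := by
  have h := D_mul 0 0
  rw [add_zero] at h
  exact mul_eq_left.1 h

theorem D_inv (t : ℝ) : (D t)⁻¹ = D (-t) := by
  rw [inv_eq_iff_mul_eq_one, D_mul, add_neg_cancel, D_zero]

theorem rot_mul_apply (A B : SL(2, ℝ)) (i j : Fin 2) :
    (A * B) i j = A i 0 * B 0 j + A i 1 * B 1 j := by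
  rw [Matrix.SpecialLinearGroup.coe_mul, Matrix.mul_apply, Fin.sum_univ_two]

theorem rot_pi_dia (t : ℝ) : rot π * dia t * rot (-π) = dia (-t) := by
  ext i j
  rw [rot_mul_apply, rot_mul_apply, rot_mul_apply]
  have h1 : cos (-π / 2) = 0 := by rw [neg_div, cos_neg, cos_pi_div_two]
  have h2 : sin (-π / 2) = -1 := by rw [neg_div, sin_neg, sin_pi_div_two]
  fin_cases i <;> fin_cases j <;> simp [dia, rot, h1, h2]

theorem T_pi_D (t : ℝ) : T π * D t * T (-π) = D (-t) := by
  have h1 := ((isLift_T π).mul (isLift_D t)).mul (isLift_T (-π))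
  rw [← QuotientGroup.mk_mul, ← QuotientGroup.mk_mul, rot_pi_dia] at h1
  refine h1.eq_of_apply_eq (isLift_D (-t)) (x := π) ?_
  simp [RelIso.mul_apply, D_apply_zero, D_apply_pi]

/-- the matrix `[[cosh v, sinh v], [sinh v, cosh v]]` -/
noncomputable def hyp (v : ℝ) : SL(2, ℝ) :=
  ⟨!![cosh v, sinh v; sinh v, cosh v], by
    rw [Matrix.det_fin_two_of]; have := cosh_sq v; linarith⟩

theorem hyp_eq (v : ℝ) : rot (π / 2) * dia v * rot (-(π / 2)) = hyp v := by
  ext i j
  rw [rot_mul_apply, rot_mul_apply, rot_mul_apply]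
  have h0 : π / 2 / 2 = π / 4 := by ring
  have h1 : cos (-(π / 2) / 2) = √2 / 2 := by rw [neg_div, cos_neg, h0, cos_pi_div_four]
  have h2 : sin (-(π / 2) / 2) = -(√2 / 2) := by rw [neg_div, sin_neg, h0, sin_pi_div_four]
  have h3 : √2 * √2 = 2 := mul_self_sqrt (by norm_num)
  fin_cases i <;> fin_cases j <;>
    simp [dia, rot, hyp, h0, h1, h2, cosh_eq, sinh_eq, cos_pi_div_four, sin_pi_div_four]
  · linear_combination (exp v / 4 + exp (-v) / 4) * h3
  · linear_combination (exp v / 4 - exp (-v) / 4) * h3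
  · linear_combination (exp v / 4 - exp (-v) / 4) * h3
  · linear_combination (exp v / 4 + exp (-v) / 4) * h3

theorem hyp_inv (v : ℝ) : (hyp v)⁻¹ = hyp (-v) := by
  rw [inv_eq_iff_mul_eq_one]
  have hcs := cosh_sq v
  ext i j
  rw [rot_mul_apply]
  fin_cases i <;> fin_cases j <;> simp [hyp] <;> linarith

/-- the lift of `[[cosh v, sinh v], [sinh v, cosh v]]` fixing `π/2` -/
noncomputable def Y (v : ℝ) : ℝ ≃o ℝ := T (π / 2) * D v * T (-(π / 2))

theorem isLift_Y (v : ℝ) : IsLift (QuotientGroup.mk (hyp v) : PSL(2, ℝ)) (Y v) := by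
  rw [← hyp_eq]
  exact ((isLift_T _).mul (isLift_D v)).mul (isLift_T _)

/-- An elliptic element whose lift has displacement strictly between `0` and `2π` somewhere is
conjugate to the translation by `2 arccos c`. -/
theorem elliptic_conj {c j d : ℝ} (hj : 0 < j) (hc1 : -1 < c) (hc2 : c < 1)
    (hdet : c ^ 2 + j ^ 2 - d ^ 2 = 1) {M : SL(2, ℝ)}
    (hM : (M : Matrix (Fin 2) (Fin 2) ℝ) = !![c + d, -j; j, c - d]) {F : ℝ ≃o ℝ}
    (hF : IsLift (QuotientGroup.mk M : PSL(2, ℝ)) F) {x : ℝ} (hx1 : x < F x)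
    (hx2 : F x < x + 2 * π) : ∃ v : ℝ, F = Y v * T (2 * arccos c) * (Y v)⁻¹ := by
  have hs2 : 0 < 1 - c ^ 2 := by nlinarith
  set s := √(1 - c ^ 2) with hs
  have hspos : 0 < s := sqrt_pos.2 hs2
  have hsq : s ^ 2 = 1 - c ^ 2 := sq_sqrt hs2.le
  set v := arsinh (d / s) / 2 with hv
  have hsinh : s * sinh (2 * v) = d := by
    have : 2 * v = arsinh (d / s) := by rw [hv]; ring
    rw [this, sinh_arsinh]; field_simp
  have hcosh : s * cosh (2 * v) = j := by
    have h1 : (s * cosh (2 * v)) ^ 2 = j ^ 2 := by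
      have := cosh_sq (2 * v)
      rw [mul_pow, this]
      have e : s ^ 2 * (sinh (2 * v) ^ 2 + 1) = (s * sinh (2 * v)) ^ 2 + s ^ 2 := by ring
      rw [e, hsinh, hsq]; linarith
    have h2 : 0 < s * cosh (2 * v) := mul_pos hspos (cosh_pos _)
    exact (pow_left_inj₀ h2.le hj.le (by norm_num)).1 h1
  rw [sinh_two_mul] at hsinh
  rw [cosh_two_mul] at hcosh
  have hmat : M = hyp v * rot (2 * arccos c) * (hyp v)⁻¹ := by
    have e : 2 * arccos c / 2 = arccos c := by ring
    have e1 : cos (arccos c) = c := cos_arccos hc1.le hc2.le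
    have e2 : sin (arccos c) = s := sin_arccos c
    have hcs := cosh_sq v
    ext a b
    rw [hyp_inv, rot_mul_apply, rot_mul_apply, rot_mul_apply, hM]
    fin_cases a <;> fin_cases b <;> simp [rot, hyp, e, e1, e2]
    · linear_combination (-c) * hcs - hsinh
    · linear_combination hcosh
    · linear_combination -hcosh
    · linear_combination (-c) * hcs + hsinh
  refine ⟨v, ?_⟩
  have hG : IsLift (QuotientGroup.mk M : PSL(2, ℝ)) (Y v * T (2 * arccos c) * (Y v)⁻¹) := by
    have := ((isLift_Y v).mul (isLift_T (2 * arccos c))).mul (isLift_Y v).inv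
    rw [hmat]
    exact this
  obtain ⟨k, hk⟩ := hF.exists_int hG
  have hpi := pi_pos
  -- evaluate
  set y := (Y v)⁻¹ x with hy
  have hxy : x = Y v y := by rw [hy, RelIso.apply_inv_self]
  have hFx : F x = Y v (y + 2 * arccos c + k * (2 * π)) := by
    rw [hk, (isLift_Y v).map_add_int]
    simp [RelIso.mul_apply, hy]
  have h1 : 0 < 2 * arccos c + k * (2 * π) := by
    rw [hFx] at hx1
    nth_rewrite 1 [hxy] at hx1
    rw [(Y v).lt_iff_lt] at hx1
    linarith
  have h2 : 2 * arccos c + k * (2 * π) < 2 * π := by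
    rw [hFx] at hx2
    nth_rewrite 1 [hxy] at hx2
    rw [← (isLift_Y v).map_add_two_pi, (Y v).lt_iff_lt] at hx2
    linarith
  have h3 : 0 < arccos c := arccos_pos.2 hc2
  have h4 : arccos c < π := by
    refine lt_of_le_of_ne (arccos_le_pi c) ?_
    intro h
    rw [arccos_eq_pi] at h
    linarith
  have hk0 : k = 0 := by
    have a1 : (k : ℝ) < 1 := by
      by_contra h; push Not at h; nlinarith
    have a2 : (-1 : ℝ) < k := by
      by_contra h; push Not at h; nlinarith
    have b1 : k < 1 := by exact_mod_cast a1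
    have b2 : -1 < k := by exact_mod_cast a2
    omega
  rw [hk, hk0]; simp

end Pool.Agent.Lib.Pb43922
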