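import Pool.Agent.Lib.Pb43922.Hyp

open scoped MatrixGroups LinearAlgebra.Projectivization

namespace Pool.Agent.Lib.Pb43922

open Real

/-- squared Frobenius norm -/
noncomputable def frob (A : SL(2, ℝ)) : ℝ := A 0 0 ^ 2 + A 0 1 ^ 2 + A 1 0 ^ 2 + A 1 1 ^ 2

theorem rot_00 (φ : ℝ) : rot φ 0 0 = cos (φ / 2) := rfl
theorem rot_01 (φ : ℝ) : rot φ 0 1 = -sin (φ / 2) := rfl
theorem rot_10 (φ : ℝ) : rot φ 1 0 = sin (φ / 2) := rfl
theorem rot_11 (φ : ℝ) : rot φ 1 1 = cos (φ / 2) := rfl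

/-- transpose -/
noncomputable def tr (A : SL(2, ℝ)) : SL(2, ℝ) :=
  ⟨!![A 0 0, A 1 0; A 0 1, A 1 1], by rw [Matrix.det_fin_two_of]; linarith [det_eq A]⟩

theorem tr_00 (A : SL(2, ℝ)) : tr A 0 0 = A 0 0 := rfl
theorem tr_01 (A : SL(2, ℝ)) : tr A 0 1 = A 1 0 := rfl
theorem tr_10 (A : SL(2, ℝ)) : tr A 1 0 = A 0 1 := rfl
theorem tr_11 (A : SL(2, ℝ)) : tr A 1 1 = A 1 1 := rfl

noncomputable def pp (A : SL(2, ℝ)) : ℂ := ⟨(A 0 0 + A 1 1) / 2, (A 1 0 - A 0 1) / 2⟩

noncomputable def qq (A : SL(2, ℝ)) : ℂ := ⟨(A 0 0 - A 1 1) / 2, (A 0 1 + A 1 0) / 2⟩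

theorem eq_of_pp_qq {A B : SL(2, ℝ)} (h1 : pp A = pp B) (h2 : qq A = qq B) : A = B := by
  have a1 := congrArg Complex.re h1
  have a2 := congrArg Complex.im h1
  have a3 := congrArg Complex.re h2
  have a4 := congrArg Complex.im h2
  simp only [pp, qq] at a1 a2 a3 a4
  ext i j
  fin_cases i <;> fin_cases j <;> simp <;> linarith

theorem norm_pp_sq (A : SL(2, ℝ)) : ‖pp A‖ ^ 2 = (frob A + 2) / 4 := by
  rw [← Complex.normSq_eq_norm_sq, Complex.normSq_apply]
  simp only [pp, frob]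
  linear_combination (1 / 2 : ℝ) * det_eq A

theorem norm_qq_sq (A : SL(2, ℝ)) : ‖qq A‖ ^ 2 = (frob A - 2) / 4 := by
  rw [← Complex.normSq_eq_norm_sq, Complex.normSq_apply]
  simp only [qq, frob]
  linear_combination (-(1 / 2) : ℝ) * det_eq A

theorem pp_rot (x y : ℝ) (A : SL(2, ℝ)) :
    pp (rot (x + y) * A * rot (x - y)) = pp A * ⟨cos x, sin x⟩ := by
  have e1 : x = (x + y) / 2 + (x - y) / 2 := by ring
  have c1 : cos x = cos ((x + y) / 2) * cos ((x - y) / 2) - sin ((x + y) / 2) * sin ((x - y) / 2) := by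
    rw [← cos_add]; congr 1
  have s1 : sin x = sin ((x + y) / 2) * cos ((x - y) / 2) + cos ((x + y) / 2) * sin ((x - y) / 2) := by
    rw [← sin_add]; congr 1
  apply Complex.ext
  · simp only [pp, rot_mul_apply, Complex.mul_re, rot_00, rot_01, rot_10, rot_11, c1, s1]
    ring
  · simp only [pp, rot_mul_apply, Complex.mul_im, rot_00, rot_01, rot_10, rot_11, c1, s1]
    ring

theorem qq_rot (x y : ℝ) (A : SL(2, ℝ)) :
    qq (rot (x + y) * A * rot (x - y)) = qq A * ⟨cos y, sin y⟩ := by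
  have c1 : cos y = cos ((x + y) / 2) * cos ((x - y) / 2) + sin ((x + y) / 2) * sin ((x - y) / 2) := by
    rw [← cos_sub]; congr 1; ring
  have s1 : sin y = sin ((x + y) / 2) * cos ((x - y) / 2) - cos ((x + y) / 2) * sin ((x - y) / 2) := by
    rw [← sin_sub]; congr 1; ring
  apply Complex.ext
  · simp only [qq, rot_mul_apply, Complex.mul_re, rot_00, rot_01, rot_10, rot_11, c1, s1]
    ring
  · simp only [qq, rot_mul_apply, Complex.mul_im, rot_00, rot_01, rot_10, rot_11, c1, s1]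
    ring

theorem mul_cis_eq {z w : ℂ} (h : ‖z‖ = ‖w‖) :
    z * ⟨cos (w.arg - z.arg), sin (w.arg - z.arg)⟩ = w := by
  have e : (⟨cos (w.arg - z.arg), sin (w.arg - z.arg)⟩ : ℂ) =
      Complex.exp ((w.arg - z.arg : ℝ) * Complex.I) := by
    rw [Complex.exp_mul_I, ← Complex.ofReal_cos, ← Complex.ofReal_sin,
      ← Complex.mk_eq_add_mul_I]
  rw [e]
  have hz := Complex.norm_mul_exp_arg_mul_I z
  have hw := Complex.norm_mul_exp_arg_mul_I w
  calc z * Complex.exp ((w.arg - z.arg : ℝ) * Complex.I)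
      = (‖z‖ * Complex.exp (z.arg * Complex.I)) * Complex.exp ((w.arg - z.arg : ℝ) * Complex.I) := by
        rw [hz]
    _ = ‖w‖ * Complex.exp (w.arg * Complex.I) := by
        rw [mul_assoc, ← Complex.exp_add, h]
        congr 2
        push_cast
        ring
    _ = w := hw

/-- Elements with the same Frobenius norm lie in the same double coset of the rotations. -/
theorem exists_rot_mul_rot {A B : SL(2, ℝ)} (h : frob A = frob B) :
    ∃ φ φ' : ℝ, rot φ * A * rot φ' = B := by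
  have h1 : ‖pp A‖ = ‖pp B‖ := by
    have := norm_pp_sq A
    rw [h, ← norm_pp_sq B] at this
    exact (pow_left_inj₀ (norm_nonneg _) (norm_nonneg _) (by norm_num)).1 this
  have h2 : ‖qq A‖ = ‖qq B‖ := by
    have := norm_qq_sq A
    rw [h, ← norm_qq_sq B] at this
    exact (pow_left_inj₀ (norm_nonneg _) (norm_nonneg _) (by norm_num)).1 this
  set x := (pp B).arg - (pp A).arg with hx
  set y := (qq B).arg - (qq A).arg with hy
  refine ⟨x + y, x - y, eq_of_pp_qq ?_ ?_⟩
  · rw [pp_rot, hx]; exact mul_cis_eq h1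
  · rw [qq_rot, hy]; exact mul_cis_eq h2

theorem two_le_frob (A : SL(2, ℝ)) : 2 ≤ frob A := by
  have := norm_qq_sq A
  nlinarith [sq_nonneg ‖qq A‖]

theorem continuous_rot : Continuous rot := by
  refine continuous_induced_rng.2 ?_
  have : (fun φ : ℝ => ((rot φ : SL(2, ℝ)) : Matrix (Fin 2) (Fin 2) ℝ)) =
      fun φ => !![cos (φ / 2), -sin (φ / 2); sin (φ / 2), cos (φ / 2)] := rfl
  change Continuous (fun φ : ℝ => ((rot φ : SL(2, ℝ)) : Matrix (Fin 2) (Fin 2) ℝ))
  rw [this]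
  refine continuous_matrix fun i j => ?_
  fin_cases i <;> fin_cases j <;> simp <;> fun_prop

theorem continuous_frob : Continuous frob := by
  have h : ∀ i j : Fin 2, Continuous fun A : SL(2, ℝ) => A i j := fun i j =>
    (continuous_apply j).comp (Matrix.SpecialLinearGroup.continuous_apply _ continuous_id i)
  unfold frob
  exact (((h 0 0).pow 2).add ((h 0 1).pow 2)).add ((h 1 0).pow 2) |>.add ((h 1 1).pow 2)

/-- A subgroup of `SL(2,ℝ)` containing all rotations and an element which is not a rotation is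
everything. -/
theorem eq_top_of_rot_mem {C : Subgroup SL(2, ℝ)} (hC : ∀ φ, rot φ ∈ C) {A : SL(2, ℝ)}
    (hA : A ∈ C) (hA2 : 2 < frob A) : C = ⊤ := by
  have key : ∀ A ∈ C, ∀ B : SL(2, ℝ), frob B ≤ frob A ^ 2 - 2 → B ∈ C := by
    intro A hA B hB
    have hA'C : tr A ∈ C := by
      have : frob A = frob (tr A) := by
        simp only [frob, tr_00, tr_01, tr_10, tr_11]; ring
      obtain ⟨φ, φ', h⟩ := exists_rot_mul_rot this
      rw [← h]
      exact C.mul_mem (C.mul_mem (hC _) hA) (hC _)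
    set f : ℝ → ℝ := fun φ => frob (A * rot φ * tr A) with hf
    have hcont : Continuous f :=
      continuous_frob.comp ((continuous_const.mul continuous_rot).mul continuous_const)
    have hf0 : f 0 = frob A ^ 2 - 2 := by
      simp only [hf, frob, rot_mul_apply, rot_00, rot_01, rot_10, rot_11, tr_00, tr_01, tr_10,
        tr_11, zero_div, cos_zero, sin_zero]
      linear_combination (-2 * (A 0 0 * A 1 1 - A 0 1 * A 1 0) - 2) * det_eq A
    have hfpi : f π = 2 := by
      simp only [hf, frob, rot_mul_apply, rot_00, rot_01, rot_10, rot_11, tr_00, tr_01, tr_10,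
        tr_11, cos_pi_div_two, sin_pi_div_two]
      linear_combination (2 * (A 0 0 * A 1 1 - A 0 1 * A 1 0) + 2) * det_eq A
    have hmem : frob B ∈ Set.Icc (f π) (f 0) := by
      rw [hf0, hfpi]; exact ⟨two_le_frob B, hB⟩
    obtain ⟨φ, -, hφ⟩ := intermediate_value_Icc' pi_pos.le hcont.continuousOn hmem
    obtain ⟨a, b, h⟩ := exists_rot_mul_rot hφ
    rw [← h]
    exact C.mul_mem (C.mul_mem (hC _) (C.mul_mem (C.mul_mem hA (hC _)) hA'C)) (hC _)
  have hgrow : ∀ k : ℕ, ∃ A' ∈ C, 2 + 4 ^ k * (frob A - 2) ≤ frob A' := by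
    intro k
    induction k with
    | zero => exact ⟨A, hA, by simp⟩
    | succ k ih =>
      obtain ⟨A', hA', h⟩ := ih
      have hn : frob (A' * tr A') = frob A' ^ 2 - 2 := by
        simp only [frob, rot_mul_apply, tr_00, tr_01, tr_10, tr_11]
        linear_combination (-2 * (A' 0 0 * A' 1 1 - A' 0 1 * A' 1 0) - 2) * det_eq A'
      refine ⟨A' * tr A', key A' hA' _ hn.le, ?_⟩
      rw [hn, pow_succ]
      have h4 : (0 : ℝ) < 4 ^ k := by positivity
      nlinarith [two_le_frob A', mul_pos h4 (sub_pos.2 hA2)]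
  rw [eq_top_iff]
  intro B _
  obtain ⟨k, hk⟩ := pow_unbounded_of_one_lt ((frob B - 2) / (frob A - 2)) (by norm_num : (1 : ℝ) < 4)
  obtain ⟨A', hA', h⟩ := hgrow k
  apply key A' hA'
  have h1 : frob B - 2 < 4 ^ k * (frob A - 2) := by
    rwa [div_lt_iff₀ (by linarith)] at hk
  nlinarith [two_le_frob A', two_le_frob B]

end Pool.Agent.Lib.Pb43922
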