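import Pool.Agent.Lib.Pb43922.Basic

open scoped MatrixGroups LinearAlgebra.Projectivization

namespace Pool.Agent.Lib.Pb43922

open Real

theorem IsLift.one : IsLift 1 1 := fun θ => by simp

theorem IsLift.mul {P Q : PSL(2, ℝ)} {F G : ℝ ≃o ℝ} (hF : IsLift P F) (hG : IsLift Q G) :
    IsLift (P * Q) (F * G) := fun θ => by
  rw [RelIso.mul_apply, hF, hG, mul_smul]

theorem IsLift.inv {P : PSL(2, ℝ)} {F : ℝ ≃o ℝ} (hF : IsLift P F) : IsLift P⁻¹ F⁻¹ := fun θ => by
  rw [eq_inv_smul_iff, ← hF, RelIso.apply_inv_self]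

theorem IsLift.pow {P : PSL(2, ℝ)} {F : ℝ ≃o ℝ} (hF : IsLift P F) (n : ℕ) :
    IsLift (P ^ n) (F ^ n) := by
  induction n with
  | zero => simpa using IsLift.one
  | succ n ih => rw [pow_succ, pow_succ]; exact ih.mul hF

/-- translation by `φ` -/
def T (φ : ℝ) : ℝ ≃o ℝ := OrderIso.addRight φ

@[simp] theorem T_apply (φ x : ℝ) : T φ x = x + φ := rfl

@[simp] theorem T_zero : T 0 = 1 := by ext x; simp

theorem T_mul (a b : ℝ) : T a * T b = T (a + b) := by
  ext x; simp [RelIso.mul_apply]; ring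

theorem T_inv (a : ℝ) : (T a)⁻¹ = T (-a) := by
  rw [inv_eq_iff_mul_eq_one, T_mul]; simp

theorem T_pow (a : ℝ) (n : ℕ) : (T a) ^ n = T (n * a) := by
  induction n with
  | zero => simp
  | succ n ih => rw [pow_succ, ih, T_mul]; congr 1; push_cast; ring

/-- the rotation matrix covered by the translation `T φ` -/
noncomputable def rot (φ : ℝ) : SL(2, ℝ) :=
  ⟨!![cos (φ / 2), -sin (φ / 2); sin (φ / 2), cos (φ / 2)], by
    rw [Matrix.det_fin_two_of]
    have := cos_sq_add_sin_sq (φ / 2)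
    linarith [this]⟩

theorem isLift_T (φ : ℝ) : IsLift (QuotientGroup.mk (rot φ) : PSL(2, ℝ)) (T φ) := fun θ => by
  rw [Matrix.ProjectiveSpecialLinearGroup.smul_proj_mk]
  unfold pt
  rw [Projectivization.smul_mk, Projectivization.mk_eq_mk_iff', T_apply]
  refine ⟨1, ?_⟩
  have e : (θ + φ) / 2 = θ / 2 + φ / 2 := by ring
  rw [one_smul]
  ext i
  rw [smul_vec, e, cos_add, sin_add]
  fin_cases i
  · simp [rot]; ring
  · simp [rot]; ring

theorem rot_mem_U1 (φ : ℝ) : (QuotientGroup.mk (rot φ) : PSL(2, ℝ)) ∈ U1 := by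
  refine ⟨rot φ, ?_, rfl⟩
  rw [Matrix.mem_orthogonalGroup_iff]
  have := cos_sq_add_sin_sq (φ / 2)
  ext i j
  fin_cases i <;> fin_cases j <;>
    simp [rot, Matrix.mul_apply, Fin.sum_univ_two] <;> nlinarith

/-- every element of `U(1)` is (the class of) a rotation -/
theorem exists_rot_of_mem_U1 {P : PSL(2, ℝ)} (hP : P ∈ U1) :
    ∃ φ : ℝ, P = (QuotientGroup.mk (rot φ) : PSL(2, ℝ)) := by
  obtain ⟨A, hA, rfl⟩ := hP
  rw [Matrix.mem_orthogonalGroup_iff] at hA
  have h00 := congrFun (congrFun hA 0) 0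
  have h01 := congrFun (congrFun hA 0) 1
  have h11 := congrFun (congrFun hA 1) 1
  simp [Matrix.mul_apply, Fin.sum_univ_two] at h00 h01 h11
  have hd := det_eq A
  -- A = [[a, b], [-b, a]]
  have hz : ‖(⟨A 0 0, A 1 0⟩ : ℂ)‖ = 1 := by
    rw [Complex.norm_eq_sqrt_sq_add_sq]
    simp only
    rw [show (A 0 0) ^ 2 + (A 1 0) ^ 2 = 1 from ?_]
    · simp
    · have e1 : A 1 0 = - A 0 1 := by
        linear_combination (-(A 0 1)) * hd + A 0 0 * h01 + (-(A 1 0)) * h00
      rw [e1]; linear_combination h00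
  have e1 : A 1 0 = - A 0 1 := by
    linear_combination (-(A 0 1)) * hd + A 0 0 * h01 + (-(A 1 0)) * h00
  have e2 : A 1 1 = A 0 0 := by
    linear_combination (A 0 0) * hd + A 0 1 * h01 + (-(A 1 1)) * h00
  have hz0 : (⟨A 0 0, A 1 0⟩ : ℂ) ≠ 0 := by
    intro h; rw [h] at hz; simp at hz
  refine ⟨2 * (⟨A 0 0, A 1 0⟩ : ℂ).arg, ?_⟩
  congr 1
  ext i j
  have ec := Complex.cos_arg hz0
  have es := Complex.sin_arg (⟨A 0 0, A 1 0⟩ : ℂ)
  rw [hz] at ec es
  simp only [div_one] at ec es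
  fin_cases i <;> fin_cases j
  · simp [rot, ec]
  · simp only [rot, Fin.zero_eta, Fin.mk_one, Matrix.SpecialLinearGroup.coe_mk]
    simp
    rw [es, e1, neg_neg]
  · simp [rot, es]
  · simp [rot, ec, e2]

theorem IsLift.map_add_two_pi {P : PSL(2, ℝ)} {F : ℝ ≃o ℝ} (hF : IsLift P F) (θ : ℝ) :
    F (θ + 2 * π) = F θ + 2 * π := by
  have h1 : pt (F (θ + 2 * π)) = pt (F θ) := by rw [hF, hF, pt_add_two_pi]
  obtain ⟨k, hk⟩ := pt_eq_iff.1 h1
  have hpi : (0 : ℝ) < 2 * π := by positivity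
  -- the point θ' with F θ' = F θ + 2π
  have h2 : pt (F⁻¹ (F θ + 2 * π)) = pt θ := by
    rw [hF.inv, pt_add_two_pi, hF, inv_smul_smul]
  obtain ⟨j, hj⟩ := pt_eq_iff.1 h2
  have h3 : F (θ + j * (2 * π)) = F θ + 2 * π := by
    rw [← hj, RelIso.apply_inv_self]
  have hjpos : (0 : ℝ) < j * (2 * π) := by
    have : θ < θ + j * (2 * π) := by
      rw [← F.lt_iff_lt, h3]; linarith
    linarith
  have hj1 : (1 : ℝ) ≤ j := by
    have : (0 : ℝ) < j := by
      by_contra hneg
      push Not at hneg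
      nlinarith
    have h' : 0 < j := by exact_mod_cast this
    have h'' : 1 ≤ j := by omega
    exact_mod_cast h''
  have h4 : F (θ + 2 * π) ≤ F θ + 2 * π := by
    rw [← h3, F.le_iff_le]
    nlinarith
  have h5 : F θ < F (θ + 2 * π) := by rw [F.lt_iff_lt]; linarith
  rw [hk] at h4 h5 ⊢
  have hk1 : (k : ℝ) ≤ 1 := by
    by_contra h
    push Not at h
    nlinarith
  have hk0 : (0 : ℝ) < k := by
    by_contra h
    push Not at h
    nlinarith
  have : k = 1 := by
    have a1 : k ≤ 1 := by exact_mod_cast hk1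
    have a2 : 0 < k := by exact_mod_cast hk0
    omega
  rw [this]; simp

theorem IsLift.comm_T {P : PSL(2, ℝ)} {F : ℝ ≃o ℝ} (hF : IsLift P F) :
    Commute F (T (2 * π)) := by
  ext x
  simp only [RelIso.mul_apply, T_apply]
  exact hF.map_add_two_pi x

theorem IsLift.comm_T_int {P : PSL(2, ℝ)} {F : ℝ ≃o ℝ} (hF : IsLift P F) (k : ℤ) :
    Commute F (T (k * (2 * π))) := by
  have h : T (k * (2 * π)) = (T (2 * π)) ^ k := by
    cases k with
    | ofNat n => simp [T_pow]
    | negSucc n =>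
      rw [zpow_negSucc, T_pow, T_inv]; congr 1; push_cast; ring
  rw [h]
  exact hF.comm_T.zpow_right k

theorem IsLift.map_add_int {P : PSL(2, ℝ)} {F : ℝ ≃o ℝ} (hF : IsLift P F) (θ : ℝ) (k : ℤ) :
    F (θ + k * (2 * π)) = F θ + k * (2 * π) := by
  have := (hF.comm_T_int k).eq
  have h := congrArg (fun f : ℝ ≃o ℝ => f θ) this
  simpa [RelIso.mul_apply] using h

/-- a lift of the identity is a deck transformation -/
theorem isLift_one_iff {F : ℝ ≃o ℝ} (hF : IsLift 1 F) : ∃ k : ℤ, F = T (k * (2 * π)) := by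
  have h : ∀ θ, ∃ k : ℤ, F θ = θ + k * (2 * π) := fun θ => by
    rw [← pt_eq_iff, hF, one_smul]
  choose k hk using h
  have hpi : (0 : ℝ) < 2 * π := by positivity
  -- k is constant on short intervals
  have hshort : ∀ x y, x ≤ y → y < x + 2 * π → k x = k y := by
    intro x y hxy hyx
    have h1 : F x ≤ F y := by rwa [F.le_iff_le]
    have h2 : F y < F x + 2 * π := by
      rw [← hF.map_add_two_pi, F.lt_iff_lt]; exact hyx
    rw [hk x, hk y] at h1 h2
    have a1 : ((k x - k y : ℤ) : ℝ) < 1 := by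
      push_cast
      by_contra h; push Not at h
      nlinarith
    have a2 : (-1 : ℝ) < ((k x - k y : ℤ) : ℝ) := by
      push_cast
      by_contra h; push Not at h
      nlinarith
    have b1 : k x - k y < 1 := by exact_mod_cast a1
    have b2 : -1 < k x - k y := by exact_mod_cast a2
    omega
  have hper : ∀ x, ∀ j : ℤ, k (x + j * (2 * π)) = k x := by
    intro x j
    have h1 := hF.map_add_int x j
    rw [hk, hk] at h1
    have h2 : (k (x + j * (2 * π)) : ℝ) * (2 * π) = k x * (2 * π) := by linarith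
    have h3 : (k (x + j * (2 * π)) : ℝ) = k x := mul_right_cancel₀ (ne_of_gt hpi) h2
    exact_mod_cast h3
  refine ⟨k 0, ?_⟩
  ext x
  have : k x = k 0 := by
    have h1 : x = toIcoMod hpi 0 x + toIcoDiv hpi 0 x * (2 * π) := by
      have := toIcoMod_add_toIcoDiv_zsmul hpi 0 x
      rw [zsmul_eq_mul] at this
      exact this.symm
    have hm := toIcoMod_mem_Ico hpi 0 x
    rw [h1, hper]
    symm
    apply hshort
    · exact hm.1
    · exact hm.2
  rw [hk, T_apply, this]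

theorem IsLift.exists_int {P : PSL(2, ℝ)} {F G : ℝ ≃o ℝ} (hF : IsLift P F) (hG : IsLift P G) :
    ∃ k : ℤ, F = T (k * (2 * π)) * G := by
  have h := hF.mul hG.inv
  rw [mul_inv_cancel] at h
  obtain ⟨k, hk⟩ := isLift_one_iff h
  exact ⟨k, by rw [← hk]; group⟩

theorem IsLift.eq_of_apply_eq {P : PSL(2, ℝ)} {F G : ℝ ≃o ℝ} (hF : IsLift P F)
    (hG : IsLift P G) {x : ℝ} (hx : F x = G x) : F = G := by
  obtain ⟨k, hk⟩ := hF.exists_int hG
  rw [hk] at hx
  simp only [RelIso.mul_apply, T_apply] at hx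
  have h : (k : ℝ) * (2 * π) = 0 := by linarith
  rw [h] at hk
  simpa using hk

/-- a lift determines the projective transformation -/
theorem IsLift.unique {P Q : PSL(2, ℝ)} {F : ℝ ≃o ℝ} (hP : IsLift P F) (hQ : IsLift Q F) :
    P = Q := by
  apply FaithfulSMul.eq_of_smul_eq_smul (α := RP1)
  intro x
  obtain ⟨θ, rfl⟩ := pt_surjective x
  rw [← hP, ← hQ]

theorem isLift_T_int (k : ℤ) : IsLift 1 (T (k * (2 * π))) := fun θ => by
  rw [T_apply, pt_add_int, one_smul]

end Pool.Agent.Lib.Pb43922
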