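import Pool.Agent.Lib.Pb43922.Rep

open scoped MatrixGroups LinearAlgebra.Projectivization

namespace Pool.Agent.Lib.Pb43922

open Real

/-- `F` commutes with the deck transformation -/
def Per (F : ℝ ≃o ℝ) : Prop := ∀ x, F (x + 2 * π) = F x + 2 * π

theorem Per.one : Per 1 := fun x => by simp

theorem Per.mul {F G : ℝ ≃o ℝ} (hF : Per F) (hG : Per G) : Per (F * G) := fun x => by
  rw [RelIso.mul_apply, RelIso.mul_apply, hG, hF]

theorem Per.inv {F : ℝ ≃o ℝ} (hF : Per F) : Per F⁻¹ := fun x => by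
  apply F.injective
  rw [RelIso.apply_inv_self, hF, RelIso.apply_inv_self]

theorem Per.pow {F : ℝ ≃o ℝ} (hF : Per F) (n : ℕ) : Per (F ^ n) := by
  induction n with
  | zero => simpa using Per.one
  | succ n ih => rw [pow_succ]; exact ih.mul hF

theorem Per.map_add_nat {F : ℝ ≃o ℝ} (hF : Per F) (x : ℝ) (n : ℕ) :
    F (x + n * (2 * π)) = F x + n * (2 * π) := by
  induction n with
  | zero => simp
  | succ n ih =>
    have e : x + ((n + 1 : ℕ) : ℝ) * (2 * π) = (x + n * (2 * π)) + 2 * π := by push_cast; ring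
    rw [e, hF, ih]; push_cast; ring

theorem Per.map_add_int {F : ℝ ≃o ℝ} (hF : Per F) (x : ℝ) (k : ℤ) :
    F (x + k * (2 * π)) = F x + k * (2 * π) := by
  cases k with
  | ofNat n => simpa using hF.map_add_nat x n
  | negSucc n =>
    have h := hF.map_add_nat (x + (Int.negSucc n : ℤ) * (2 * π)) (n + 1)
    have e : x + (Int.negSucc n : ℤ) * (2 * π) + ((n + 1 : ℕ) : ℝ) * (2 * π) = x := by
      push_cast; ring
    rw [e] at h
    rw [h]; push_cast; ring

/-- oscillation of the displacement is less than one period -/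
theorem Per.osc {F : ℝ ≃o ℝ} (hF : Per F) (x y : ℝ) : F y - y < F x - x + 2 * π := by
  have hpi : (0 : ℝ) < 2 * π := by positivity
  have h1 := toIcoMod_add_toIcoDiv_zsmul hpi x y
  have hm := toIcoMod_mem_Ico hpi x y
  rw [zsmul_eq_mul] at h1
  rw [← h1, hF.map_add_int]
  have h2 : F (toIcoMod hpi x y) < F x + 2 * π := by
    rw [← hF, F.lt_iff_lt]; exact hm.2
  linarith [hm.1]

theorem comm_lt {F G : ℝ ≃o ℝ} (hF : Per F) (hG : Per G) :
    ∃ x, (F * G * F⁻¹ * G⁻¹) x < x + 2 * π := by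
  by_contra hcon
  push Not at hcon
  have hpi : (0 : ℝ) < 2 * π := by positivity
  set A := G * F with hA
  set B := F * G with hB
  have hAp : Per A := hG.mul hF
  have h1 : ∀ y, A y + 2 * π ≤ B y := by
    intro y
    have := hcon (A y)
    simp only [hA, hB, RelIso.mul_apply, RelIso.inv_apply_self] at this ⊢
    exact this
  have h2 : ∀ n : ℕ, ∀ y, (A ^ n) y + n * (2 * π) ≤ (B ^ n) y := by
    intro n
    induction n with
    | zero => intro y; simp
    | succ n ih =>
      intro y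
      rw [pow_succ', pow_succ', RelIso.mul_apply A, RelIso.mul_apply B]
      have h3 := h1 ((B ^ n) y)
      have h4 : A ((A ^ n) y + n * (2 * π)) ≤ A ((B ^ n) y) := by
        rw [A.le_iff_le]; exact ih y
      rw [hAp.map_add_nat] at h4
      push_cast
      linarith
  have h3 : ∀ n : ℕ, B ^ n = F * A ^ n * F⁻¹ := by
    intro n
    have : B = F * A * F⁻¹ := by rw [hA, hB]; group
    rw [this, conj_pow]
  -- bounds
  obtain ⟨N, hN⟩ := exists_nat_gt (|F⁻¹ 0| / (2 * π) + 1)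
  obtain ⟨K, hK⟩ := exists_nat_gt ((F 0 + 2 * π) / (2 * π) + N)
  have h4 := h2 K 0
  rw [h3, RelIso.mul_apply, RelIso.mul_apply] at h4
  have h5 : F⁻¹ 0 ≤ 0 + N * (2 * π) := by
    have : |F⁻¹ 0| / (2 * π) < N := by linarith
    rw [div_lt_iff₀ hpi] at this
    linarith [le_abs_self (F⁻¹ 0)]
  have h6 : (A ^ K) (F⁻¹ 0) ≤ (A ^ K) 0 + N * (2 * π) := by
    rw [← (hAp.pow K).map_add_nat, (A ^ K).le_iff_le]; exact h5
  have h7 := hF.osc 0 ((A ^ K) (F⁻¹ 0))
  have h8 : (F 0 + 2 * π) + N * (2 * π) < K * (2 * π) := by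
    have : (F 0 + 2 * π) / (2 * π) < K - N := by linarith
    rw [div_lt_iff₀ hpi] at this
    linarith
  linarith

theorem prod_lt {n : ℕ} (W : Fin (n + 1) → (ℝ ≃o ℝ)) (hW : ∀ i, Per (W i))
    (h : ∀ i, ∃ x, W i x < x + 2 * π) :
    Per (List.ofFn W).prod ∧ ∃ x, (List.ofFn W).prod x < x + (2 * n + 1) * (2 * π) := by
  have hpi : (0 : ℝ) < 2 * π := by positivity
  induction n with
  | zero =>
    simp only [List.ofFn_succ, List.ofFn_zero, List.prod_cons, List.prod_nil, mul_one]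
    refine ⟨hW 0, ?_⟩
    obtain ⟨x, hx⟩ := h 0
    exact ⟨x, by simpa using hx⟩
  | succ n ih =>
    obtain ⟨h1, z, hz⟩ := ih (fun i => W i.castSucc) (fun i => hW _) (fun i => h _)
    rw [ofFn_prod_succ]
    refine ⟨h1.mul (hW _), ?_⟩
    obtain ⟨x, hx⟩ := h (Fin.last (n + 1))
    refine ⟨x, ?_⟩
    rw [RelIso.mul_apply]
    have h2 := h1.osc z (W (Fin.last (n + 1)) x)
    push_cast
    linarith

theorem IsLift.per {P : PSL(2, ℝ)} {F : ℝ ≃o ℝ} (hF : IsLift P F) : Per F := hF.map_add_two_pi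

theorem ofFn_rev_prod_inv {G : Type*} [Group G] {n : ℕ} (W : Fin n → G) :
    (List.ofFn fun i => (W (Fin.rev i))⁻¹).prod = ((List.ofFn W).prod)⁻¹ := by
  induction n with
  | zero => simp
  | succ n ih =>
    rw [ofFn_prod_succ W, List.ofFn_succ, List.prod_cons, mul_inv_rev, ← ih (fun i => W i.castSucc)]
    rw [Fin.rev_zero]
    congr 2
    congr 1
    ext i
    rw [Fin.rev_succ]

/-- reversal of a product of commutators -/
theorem ofFn_comm_inv {G : Type*} [Group G] {n : ℕ} (F K : Fin n → G) :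
    (List.ofFn fun i => K (Fin.rev i) * F (Fin.rev i) * (K (Fin.rev i))⁻¹ *
      (F (Fin.rev i))⁻¹).prod = ((List.ofFn fun i => F i * K i * (F i)⁻¹ * (K i)⁻¹).prod)⁻¹ := by
  rw [← ofFn_rev_prod_inv]
  congr 1
  congr 1
  ext i
  simp [mul_assoc]

/-- The Milnor-Wood inequality (for the definition of the Euler number used here). -/
theorem milnor_wood {g : ℕ} {F G : Fin g → (ℝ ≃o ℝ)} (hF : ∀ i, Per (F i)) (hG : ∀ i, Per (G i))
    {e : ℤ} (h : ∀ θ : ℝ, (List.ofFn fun i => F i * G i * (F i)⁻¹ * (G i)⁻¹).prod θ =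
      θ + e * (2 * π)) (he : e ≠ 0) : |e| + 2 ≤ 2 * (g : ℤ) := by
  have hpi : (0 : ℝ) < 2 * π := by positivity
  cases g with
  | zero =>
    exfalso
    have := h 0
    simp at this
    exact he this
  | succ n =>
    obtain ⟨-, x, hx⟩ := prod_lt (fun i => F i * G i * (F i)⁻¹ * (G i)⁻¹)
      (fun i => (((hF i).mul (hG i)).mul (hF i).inv).mul (hG i).inv)
      (fun i => comm_lt (hF i) (hG i))
    rw [h] at hx
    have h' : ∀ θ : ℝ, (List.ofFn fun i => G (Fin.rev i) * F (Fin.rev i) * (G (Fin.rev i))⁻¹ *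
      (F (Fin.rev i))⁻¹).prod θ = θ - e * (2 * π) := by
      intro θ
      rw [ofFn_comm_inv F G]
      apply ((List.ofFn fun i => F i * G i * (F i)⁻¹ * (G i)⁻¹).prod).injective
      rw [RelIso.apply_inv_self, h]
      ring
    obtain ⟨-, y, hy⟩ := prod_lt
      (fun i => G (Fin.rev i) * F (Fin.rev i) * (G (Fin.rev i))⁻¹ * (F (Fin.rev i))⁻¹)
      (fun i => (((hG _).mul (hF _)).mul (hG _).inv).mul (hF _).inv)
      (fun i => comm_lt (hG _) (hF _))
    rw [h'] at hy
    have a1 : (e : ℝ) < 2 * n + 1 := by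
      by_contra hcon; push Not at hcon; nlinarith
    have a2 : (-e : ℝ) < 2 * n + 1 := by
      by_contra hcon; push Not at hcon; nlinarith
    have b1 : e < 2 * n + 1 := by exact_mod_cast a1
    have b2 : -e < 2 * n + 1 := by exact_mod_cast a2
    have : |e| < 2 * n + 1 := abs_lt.2 ⟨by linarith, b1⟩
    push_cast
    omega

end Pool.Agent.Lib.Pb43922
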