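import Pool.Agent.Lib.Pb43922.Gen

open scoped MatrixGroups LinearAlgebra.Projectivization Topology

namespace Pool.Agent.Lib.Pb43922

open Real

/-- the lift of a half-turn about a point of the hyperbolic plane -/
noncomputable def EE (u : ℝ) : ℝ ≃o ℝ := Y u * T π * (Y u)⁻¹

theorem isLift_EE (u : ℝ) :
    IsLift (QuotientGroup.mk (hyp u * rot π * (hyp u)⁻¹) : PSL(2, ℝ)) (EE u) :=
  ((isLift_Y u).mul (isLift_T π)).mul (isLift_Y u).inv

theorem EE_inv (u : ℝ) : (EE u)⁻¹ = EE u * T (-(2 * π)) := by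
  have h : EE u * EE u = T (2 * π) := by
    have : EE u * EE u = Y u * (T π * T π) * (Y u)⁻¹ := by rw [EE]; group
    rw [this, T_mul, show π + π = 2 * π by ring, (isLift_Y u).comm_T.eq]
    group
  rw [inv_eq_iff_mul_eq_one, ← mul_assoc, h, T_mul, add_neg_cancel, T_zero]

theorem hyp_00 (v : ℝ) : hyp v 0 0 = cosh v := rfl
theorem hyp_01 (v : ℝ) : hyp v 0 1 = sinh v := rfl
theorem hyp_10 (v : ℝ) : hyp v 1 0 = sinh v := rfl
theorem hyp_11 (v : ℝ) : hyp v 1 1 = cosh v := rfl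

theorem Y_pi_div_two (v : ℝ) : Y v (π / 2) = π / 2 := by
  rw [Y]; simp [RelIso.mul_apply, D_apply_zero]

theorem Y_three_pi_div_two (v : ℝ) : Y v (π / 2 + π) = π / 2 + π := by
  rw [Y]; simp [RelIso.mul_apply, D_apply_pi]; ring

theorem half_conj {u ω : ℝ} (h0 : 0 < ω) (h1 : ω < π) (h2 : cosh (2 * u) * sin (ω / 2) < 1) :
    ∃ v, T (ω / 2) * EE u * T (ω / 2) =
      Y v * T (2 * arccos (-(cosh (2 * u) * sin (ω / 2)))) * (Y v)⁻¹ := by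
  have hcos : 0 < cos (ω / 2) := cos_pos_of_mem_Ioo ⟨by linarith, by linarith⟩
  have hsin : 0 < sin (ω / 2) := sin_pos_of_pos_of_lt_pi (by linarith) (by linarith)
  have hcs : 0 < cosh (2 * u) := cosh_pos _
  have hF : IsLift (QuotientGroup.mk (rot (ω / 2) * (hyp u * rot π * (hyp u)⁻¹) * rot (ω / 2)) :
      PSL(2, ℝ)) (T (ω / 2) * EE u * T (ω / 2)) :=
    ((isLift_T _).mul (isLift_EE u)).mul (isLift_T _)
  have hEx : EE u (π / 2) = π / 2 + π := by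
    have : (Y u)⁻¹ (π / 2) = π / 2 := by
      apply (Y u).injective
      rw [RelIso.apply_inv_self, Y_pi_div_two]
    rw [EE, RelIso.mul_apply, RelIso.mul_apply, this, T_apply, Y_three_pi_div_two]
  have hFx : (T (ω / 2) * EE u * T (ω / 2)) (π / 2 - ω / 2) = π / 2 + π + ω / 2 := by
    rw [RelIso.mul_apply, RelIso.mul_apply, T_apply, T_apply, sub_add_cancel, hEx]
  refine elliptic_conj (j := cosh (2 * u) * cos (ω / 2)) (d := sinh (2 * u)) (mul_pos hcs hcos)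
    (by linarith) (by nlinarith) ?_ ?_ hF (x := π / 2 - ω / 2) ?_ ?_
  · have e1 := cosh_sq (2 * u)
    have e2 := cos_sq_add_sin_sq (ω / 2)
    linear_combination (cosh (2 * u) ^ 2) * e2 + e1
  · have c1 : cos (ω / 2) = 2 * cos (ω / 2 / 2) ^ 2 - 1 := by
      rw [← cos_two_mul]; congr 1; ring
    have s1 : sin (ω / 2) = 2 * sin (ω / 2 / 2) * cos (ω / 2 / 2) := by
      rw [← sin_two_mul]; congr 1; ring
    have e3 := cos_sq_add_sin_sq (ω / 2 / 2)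
    have e4 := cosh_sq u
    rw [hyp_inv]
    ext i j
    simp only [rot_mul_apply]
    rw [c1, s1, cosh_two_mul, sinh_two_mul]
    fin_cases i <;> fin_cases j <;>
      simp [rot_00, rot_01, rot_10, rot_11, hyp_00, hyp_01, hyp_10, hyp_11]
    · linear_combination (2 * sinh u * cosh u) * e3
    · linear_combination (sinh u ^ 2 + cosh u ^ 2) * e3
    · linear_combination (-(sinh u ^ 2 + cosh u ^ 2)) * e3
    · linear_combination (-2 * sinh u * cosh u) * e3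
  · rw [hFx]; linarith
  · rw [hFx]; linarith

/-- the algebraic identity behind the regular `4h`-gon -/
theorem comm_poly {G : Type*} [Group G] {X R z : G} (hX : X⁻¹ = X * z⁻¹) (hXz : Commute X z)
    (hRz : Commute R z) :
    (X * R⁻¹ ^ 2) * (R ^ 3 * X * R⁻¹) * (X * R⁻¹ ^ 2)⁻¹ * (R ^ 3 * X * R⁻¹)⁻¹ =
      (X * R) ^ 4 * (R ^ 4)⁻¹ * (z ^ 2)⁻¹ := by
  have hXz' : X * z⁻¹ = z⁻¹ * X := (hXz.inv_right).eq
  have hRz' : R * z⁻¹ = z⁻¹ * R := (hRz.inv_right).eq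
  have e1 : (X * R⁻¹ ^ 2) * (R ^ 3 * X * R⁻¹) * (X * R⁻¹ ^ 2)⁻¹ * (R ^ 3 * X * R⁻¹)⁻¹ =
      X * R * X * R * X⁻¹ * R * X⁻¹ * (R⁻¹) ^ 3 := by group
  rw [e1, hX]
  have e2 : X * R * X * R * (X * z⁻¹) * R * (X * z⁻¹) * (R⁻¹) ^ 3 =
      X * R * X * R * X * R * X * (R⁻¹) ^ 3 * (z ^ 2)⁻¹ := by
    have h3 : (R⁻¹) ^ 3 * z⁻¹ = z⁻¹ * (R⁻¹) ^ 3 := by
      have : Commute ((R⁻¹) ^ 3) z⁻¹ := (hRz.inv_inv).pow_left 3
      exact this.eq
    calc X * R * X * R * (X * z⁻¹) * R * (X * z⁻¹) * (R⁻¹) ^ 3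
        = X * R * X * R * X * (z⁻¹ * R) * X * (z⁻¹ * (R⁻¹) ^ 3) := by group
      _ = X * R * X * R * X * (R * z⁻¹) * X * ((R⁻¹) ^ 3 * z⁻¹) := by rw [hRz', h3]
      _ = X * R * X * R * X * R * (z⁻¹ * X) * (R⁻¹) ^ 3 * z⁻¹ := by group
      _ = X * R * X * R * X * R * (X * z⁻¹) * (R⁻¹) ^ 3 * z⁻¹ := by rw [hXz']
      _ = X * R * X * R * X * R * X * (z⁻¹ * (R⁻¹) ^ 3) * z⁻¹ := by group
      _ = X * R * X * R * X * R * X * ((R⁻¹) ^ 3 * z⁻¹) * z⁻¹ := by rw [h3]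
      _ = _ := by group
  have e3 : (X * R) ^ 4 = X * R * X * R * X * R * X * R := by
    simp only [pow_succ, pow_zero, one_mul, mul_assoc]
  rw [e2, e3]
  group

theorem T_commute (a b : ℝ) : Commute (T a) (T b) := by
  show T a * T b = T b * T a
  rw [T_mul, T_mul, add_comm]

/-- Tuples of lifts whose product of commutators is the translation by `2π(2h-1) - α`. -/
theorem poly_tuple {h : ℕ} (hh : 1 ≤ h) {α : ℝ} (hα0 : 0 < α) (hα1 : α < 2 * π * (2 * h - 1)) :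
    ∃ F G : Fin h → (ℝ ≃o ℝ), ∃ P Q : Fin h → PSL(2, ℝ),
      (∀ i, IsLift (P i) (F i)) ∧ (∀ i, IsLift (Q i) (G i)) ∧
      (List.ofFn fun i => F i * G i * (F i)⁻¹ * (G i)⁻¹).prod =
        T (2 * π * (2 * h - 1) - α) := by
  have hpi := pi_pos
  have hh' : (1 : ℝ) ≤ h := by exact_mod_cast hh
  set ω : ℝ := π / (2 * h) with hω
  have hω0 : 0 < ω := by positivity
  have hω1 : ω < π := by
    rw [hω, div_lt_iff₀ (by positivity)]; nlinarith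
  set β : ℝ := α / (4 * h) with hβ
  have hβ0 : 0 < β := by positivity
  have hβ1 : β < π - ω := by
    have e : π - ω = 2 * π * (2 * h - 1) / (4 * h) := by rw [hω]; field_simp; ring
    rw [e, hβ]
    exact div_lt_div_of_pos_right hα1 (by positivity)
  have hsinpos : 0 < sin (ω / 2) := sin_pos_of_pos_of_lt_pi (by linarith) (by linarith)
  have hcosβ : sin (ω / 2) < cos (β / 2) := by
    rw [← cos_pi_div_two_sub]
    apply cos_lt_cos_of_nonneg_of_le_pi (by linarith) (by linarith) (by linarith)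
  have hcosβ1 : cos (β / 2) < 1 := by
    have := cos_lt_cos_of_nonneg_of_le_pi (x := 0) (y := β / 2) le_rfl (by linarith) (by linarith)
    rwa [cos_zero] at this
  obtain ⟨u2, -, hu2⟩ := exists_cosh_eq (r := cos (β / 2) / sin (ω / 2))
    ((one_le_div hsinpos).2 hcosβ.le)
  set u := u2 / 2 with hu
  have hu2' : 2 * u = u2 := by rw [hu]; ring
  have hcosh : cosh (2 * u) * sin (ω / 2) = cos (β / 2) := by
    rw [hu2', hu2]; exact div_mul_cancel₀ _ hsinpos.ne'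
  obtain ⟨v, hv⟩ := half_conj (u := u) hω0 hω1 (by rw [hcosh]; exact hcosβ1)
  rw [hcosh, arccos_neg, arccos_cos (by linarith) (by linarith)] at hv
  have hpow := pow_eq_of_conj hv (4 * h)
  set W := T (-(ω / 2)) * Y v with hW
  set X := EE u with hX
  set R := T ω with hR
  set z := T (2 * π) with hz
  have hXz : Commute X z := (isLift_EE u).comm_T
  have hRz : Commute R z := T_commute _ _
  have hWz : Commute W z := by
    rw [hW]; exact (T_commute _ _).mul_left (isLift_Y v).comm_T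
  have hXinv : X⁻¹ = X * z⁻¹ := by rw [hX, EE_inv, hz, T_inv]
  have hR4h : R ^ (4 * h) = z := by
    rw [hR, T_pow, hz]; congr 1; rw [hω]; push_cast; field_simp; ring
  -- lifts of the elements
  set PX : PSL(2, ℝ) := QuotientGroup.mk (hyp u * rot π * (hyp u)⁻¹) with hPX
  set PR : PSL(2, ℝ) := QuotientGroup.mk (rot ω) with hPR
  set PW : PSL(2, ℝ) := QuotientGroup.mk (rot (-(ω / 2))) * QuotientGroup.mk (hyp v) with hPW
  have lX : IsLift PX X := isLift_EE u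
  have lR : IsLift PR R := isLift_T ω
  have lW : IsLift PW W := (isLift_T _).mul (isLift_Y v)
  -- the pairs
  set F0 := X * R⁻¹ ^ 2 with hF0
  set G0 := R ^ 3 * X * R⁻¹ with hG0
  have lF0 : IsLift (PX * PR⁻¹ ^ 2) F0 := lX.mul (lR.inv.pow 2)
  have lG0 : IsLift (PR ^ 3 * PX * PR⁻¹) G0 := ((lR.pow 3).mul lX).mul lR.inv
  refine ⟨fun i => W⁻¹ * ((R ^ 4) ^ (i : ℕ) * F0 * ((R ^ 4) ^ (i : ℕ))⁻¹) * W,
    fun i => W⁻¹ * ((R ^ 4) ^ (i : ℕ) * G0 * ((R ^ 4) ^ (i : ℕ))⁻¹) * W,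
    fun i => PW⁻¹ * ((PR ^ 4) ^ (i : ℕ) * (PX * PR⁻¹ ^ 2) * ((PR ^ 4) ^ (i : ℕ))⁻¹) * PW,
    fun i => PW⁻¹ * ((PR ^ 4) ^ (i : ℕ) * (PR ^ 3 * PX * PR⁻¹) * ((PR ^ 4) ^ (i : ℕ))⁻¹) * PW,
    ?_, ?_, ?_⟩
  · intro i
    exact (lW.inv.mul ((((lR.pow 4).pow i).mul lF0).mul ((lR.pow 4).pow i).inv)).mul lW
  · intro i
    exact (lW.inv.mul ((((lR.pow 4).pow i).mul lG0).mul ((lR.pow 4).pow i).inv)).mul lW
  · have hcomm := comm_poly hXinv hXz hRz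
    rw [← hF0, ← hG0] at hcomm
    have h1 : ∀ i : Fin h, (W⁻¹ * ((R ^ 4) ^ (i : ℕ) * F0 * ((R ^ 4) ^ (i : ℕ))⁻¹) * W) *
        (W⁻¹ * ((R ^ 4) ^ (i : ℕ) * G0 * ((R ^ 4) ^ (i : ℕ))⁻¹) * W) *
        (W⁻¹ * ((R ^ 4) ^ (i : ℕ) * F0 * ((R ^ 4) ^ (i : ℕ))⁻¹) * W)⁻¹ *
        (W⁻¹ * ((R ^ 4) ^ (i : ℕ) * G0 * ((R ^ 4) ^ (i : ℕ))⁻¹) * W)⁻¹ =
        W⁻¹ * ((R ^ 4) ^ (i : ℕ) * ((X * R) ^ 4 * (R ^ 4)⁻¹ * (z ^ 2)⁻¹) *
          ((R ^ 4) ^ (i : ℕ))⁻¹) * (W⁻¹)⁻¹ := by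
      intro i
      rw [← hcomm]; group
    simp only [h1]
    rw [ofFn_prod_conj', ofFn_prod_conj]
    have hRz4 : Commute (R ^ 4) (z ^ 2)⁻¹ := ((hRz.pow_left 4).pow_right 2).inv_right
    have h2 : (X * R) ^ 4 * (R ^ 4)⁻¹ * (z ^ 2)⁻¹ * R ^ 4 = (X * R) ^ 4 * (z ^ 2)⁻¹ := by
      rw [mul_assoc _ (z ^ 2)⁻¹, ← hRz4.eq]; group
    rw [h2]
    have hXRz : Commute ((X * R) ^ 4) ((z ^ 2)⁻¹) :=
      (((hXz.mul_left hRz).pow_left 4).pow_right 2).inv_right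
    rw [hXRz.mul_pow, ← pow_mul, hpow, ← pow_mul, hR4h]
    have h3 : W⁻¹ * (W * T (((4 * h : ℕ) : ℝ) * (2 * (π - β / 2))) * W⁻¹ * ((z ^ 2)⁻¹) ^ h *
        z⁻¹) * (W⁻¹)⁻¹ = T (((4 * h : ℕ) : ℝ) * (2 * (π - β / 2))) * (((z ^ 2)⁻¹) ^ h * z⁻¹) := by
      have hc : Commute W (((z ^ 2)⁻¹) ^ h * z⁻¹) :=
        (((hWz.pow_right 2).inv_right).pow_right h).mul_right hWz.inv_right
      rw [inv_inv]
      calc W⁻¹ * (W * T (((4 * h : ℕ) : ℝ) * (2 * (π - β / 2))) * W⁻¹ * ((z ^ 2)⁻¹) ^ h *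
            z⁻¹) * W
          = T (((4 * h : ℕ) : ℝ) * (2 * (π - β / 2))) * W⁻¹ *
            ((((z ^ 2)⁻¹) ^ h * z⁻¹) * W) := by group
        _ = T (((4 * h : ℕ) : ℝ) * (2 * (π - β / 2))) * W⁻¹ *
            (W * (((z ^ 2)⁻¹) ^ h * z⁻¹)) := by rw [hc.eq]
        _ = _ := by group
    rw [h3, hz, T_pow, T_inv, T_inv, T_pow, T_mul, T_mul]
    congr 1
    rw [hβ]
    push_cast
    field_simp
    ring

end Pool.Agent.Lib.Pb43922
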