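import Pool.Agent.Lib.Pb43922.MilnorWood

open scoped MatrixGroups LinearAlgebra.Projectivization

namespace Pool.Agent.Lib.Pb43922

open Real

theorem abs_arg_dia_le (t θ : ℝ) : |(wq (dia t) θ).arg| ≤ |sinh t| := by
  have hre := wq_dia_re_pos t θ
  have hlt : |(wq (dia t) θ).arg| < π / 2 := Complex.abs_arg_lt_pi_div_two_iff.2 (Or.inl hre)
  have htan : tan (wq (dia t) θ).arg = (wq (dia t) θ).im / (wq (dia t) θ).re :=
    Complex.tan_arg _
  have h1 : |(wq (dia t) θ).arg| ≤ |tan (wq (dia t) θ).arg| := by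
    set x := (wq (dia t) θ).arg
    rcases le_or_gt 0 x with hx | hx
    · rw [abs_of_nonneg hx] at hlt ⊢
      exact (le_tan hx hlt).trans (le_abs_self _)
    · rw [abs_of_neg hx] at hlt ⊢
      have := le_tan (by linarith : 0 ≤ -x) hlt
      rw [tan_neg] at this
      exact this.trans (neg_le_abs _)
  refine h1.trans ?_
  rw [htan, abs_div, abs_of_pos hre, div_le_iff₀ hre, wq_dia_im, wq_dia_re, abs_neg, abs_mul]
  apply mul_le_mul_of_nonneg_left _ (abs_nonneg _)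
  have h2 : |sin θ| - sinh t * cos θ ≤ cosh t := by
    apply le_of_sq_le_sq _ (cosh_pos t).le
    have e1 : |sin θ| ^ 2 = 1 - cos θ ^ 2 := by rw [sq_abs]; linarith [sin_sq_add_cos_sq θ]
    have e2 := cosh_sq t
    nlinarith [sq_nonneg (|sin θ| * sinh t + cos θ), sq_abs (sin θ), sin_sq_add_cos_sq θ]
  linarith

theorem D_disp (t θ : ℝ) : |D t θ - θ| ≤ 2 * |sinh t| := by
  rw [D_apply]
  have := abs_arg_dia_le t θ
  rw [show θ + 2 * (wq (dia t) θ).arg - θ = 2 * (wq (dia t) θ).arg by ring, abs_mul]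
  simpa using this

theorem D_comm_two_pi (t : ℝ) : D t * T (2 * π) = T (2 * π) * D t := (isLift_D t).comm_T.eq

theorem T_pi_mul_D (t : ℝ) : T π * D t = D (-t) * T π := by
  rw [← T_pi_D, mul_assoc (T π * D t), T_mul]; simp

theorem D_mul_T_neg_pi (t : ℝ) : D t * T (-π) = T (-π) * D (-t) := by
  rw [← T_pi_D, ← mul_assoc, ← mul_assoc, T_mul]; simp

/-- `[J s, J s⁻¹] = s⁻⁴` in the universal covering group -/
theorem comm_std (s : ℝ) : (T π * D s) * (T π * D (-s)) * (T π * D s)⁻¹ * (T π * D (-s))⁻¹ =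
    D (-(4 * s)) := by
  have h1 : (T π * D s)⁻¹ = D (-s) * T (-π) := by rw [mul_inv_rev, D_inv, T_inv]
  have h2 : (T π * D (-s))⁻¹ = D s * T (-π) := by rw [mul_inv_rev, D_inv, T_inv, neg_neg]
  rw [h1, h2, D_mul_T_neg_pi s, T_pi_mul_D s]
  calc D (-s) * T π * (T π * D (-s)) * (D (-s) * T (-π)) * (T (-π) * D (-s))
      = D (-s) * (T π * T π) * (D (-s) * D (-s)) * (T (-π) * T (-π)) * D (-s) := by group
    _ = D (-s) * (T (2 * π) * D (-s + -s)) * T (-π + -π) * D (-s) := by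
        rw [T_mul, T_mul, D_mul, show π + π = 2 * π by ring, ← mul_assoc (D (-s))]
    _ = D (-s) * (D (-s + -s) * T (2 * π)) * T (-π + -π) * D (-s) := by rw [D_comm_two_pi]
    _ = D (-s) * D (-s + -s) * (T (2 * π) * T (-π + -π)) * D (-s) := by group
    _ = D (-(4 * s)) := by
        rw [T_mul, D_mul, show 2 * π + (-π + -π) = 0 by ring, T_zero, mul_one, D_mul]
        congr 1; ring

theorem rot_mem (θ τ : ℝ) :
    ((rot (θ / 2) * dia τ * rot (θ / 2) : SL(2, ℝ)) : Matrix (Fin 2) (Fin 2) ℝ) =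
      !![cosh τ * cos (θ / 2) + sinh τ, -(cosh τ * sin (θ / 2));
        cosh τ * sin (θ / 2), cosh τ * cos (θ / 2) - sinh τ] := by
  have e1 : cos (θ / 2) = 2 * cos (θ / 2 / 2) ^ 2 - 1 := by
    rw [← cos_two_mul]; congr 1; ring
  have e2 : sin (θ / 2) = 2 * sin (θ / 2 / 2) * cos (θ / 2 / 2) := by
    rw [← sin_two_mul]; congr 1; ring
  have e3 := cos_sq_add_sin_sq (θ / 2 / 2)
  ext i j
  rw [rot_mul_apply, rot_mul_apply, rot_mul_apply, e1, e2]
  fin_cases i <;> fin_cases j <;> simp [dia, rot, cosh_eq, sinh_eq]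
  · linear_combination (-exp (-τ)) * e3
  · ring
  · ring
  · linear_combination (-exp τ) * e3

theorem std_conj {τ θ : ℝ} (h0 : 0 < θ) (h2 : θ < 2 * π) (hc1 : -1 < cosh τ * cos (θ / 2))
    (hc2 : cosh τ * cos (θ / 2) < 1) :
    ∃ v, T (θ / 2) * D τ * T (θ / 2) =
      Y v * T (2 * arccos (cosh τ * cos (θ / 2))) * (Y v)⁻¹ := by
  have hsin : 0 < sin (θ / 2) := sin_pos_of_pos_of_lt_pi (by linarith) (by linarith)
  have hF : IsLift (QuotientGroup.mk (rot (θ / 2) * dia τ * rot (θ / 2)) : PSL(2, ℝ))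
      (T (θ / 2) * D τ * T (θ / 2)) := ((isLift_T _).mul (isLift_D τ)).mul (isLift_T _)
  have hFx : (T (θ / 2) * D τ * T (θ / 2)) (-(θ / 2)) = θ / 2 := by
    simp [RelIso.mul_apply, D_apply_zero]
  refine elliptic_conj (j := cosh τ * sin (θ / 2)) (d := sinh τ) (mul_pos (cosh_pos τ) hsin)
    hc1 hc2 ?_ (rot_mem θ τ) hF (x := -(θ / 2)) ?_ ?_
  · have e1 := cosh_sq τ
    have e2 := cos_sq_add_sin_sq (θ / 2)
    linear_combination (cosh τ ^ 2) * e2 + e1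
  · rw [hFx]; linarith
  · rw [hFx]; linarith

theorem Y_comm_int (v : ℝ) (k : ℤ) : Y v * T (k * (2 * π)) = T (k * (2 * π)) * Y v :=
  ((isLift_Y v).comm_T_int k).eq

/-- if `T (θ/2) * X * T (θ/2)` is conjugate to `T ψ` with `nψ ∈ 2πℤ`, then `(X * T θ)^n` is a
deck transformation. -/
theorem pow_eq_of_conj {X : ℝ ≃o ℝ} {θ ψ v : ℝ}
    (h : T (θ / 2) * X * T (θ / 2) = Y v * T ψ * (Y v)⁻¹) (n : ℕ) :
    (X * T θ) ^ n = (T (-(θ / 2)) * Y v) * T (n * ψ) * (T (-(θ / 2)) * Y v)⁻¹ := by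
  have h1 : X * T θ = (T (-(θ / 2)) * Y v) * T ψ * (T (-(θ / 2)) * Y v)⁻¹ := by
    have e : T θ = T (θ / 2) * T (θ / 2) := by rw [T_mul]; congr 1; ring
    have e2 : (T (-(θ / 2)) * Y v)⁻¹ = (Y v)⁻¹ * T (θ / 2) := by
      rw [mul_inv_rev, T_inv, neg_neg]
    rw [e2]
    calc X * T θ = T (-(θ / 2)) * T (θ / 2) * X * (T (θ / 2) * T (θ / 2)) := by
          rw [T_mul (-(θ / 2)), ← e]; simp
      _ = T (-(θ / 2)) * (T (θ / 2) * X * T (θ / 2)) * T (θ / 2) := by group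
      _ = T (-(θ / 2)) * (Y v * T ψ * (Y v)⁻¹) * T (θ / 2) := by rw [h]
      _ = _ := by group
  rw [h1, conj_pow, T_pow]

theorem pow_eq_of_conj_int {X : ℝ ≃o ℝ} {θ ψ v : ℝ}
    (h : T (θ / 2) * X * T (θ / 2) = Y v * T ψ * (Y v)⁻¹) (n : ℕ) (m : ℤ)
    (hm : n * ψ = m * (2 * π)) : (X * T θ) ^ n = T (m * (2 * π)) := by
  rw [pow_eq_of_conj h, hm]
  have h1 : T (-(θ / 2)) * Y v * T (m * (2 * π)) = T (m * (2 * π)) * (T (-(θ / 2)) * Y v) := by
    rw [mul_assoc, Y_comm_int, ← mul_assoc, T_mul, add_comm, ← T_mul, mul_assoc]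
  rw [h1]; group

/-- The explicit representations with standard generators near `U(1)`. -/
theorem std_tuple {n k : ℕ} (hk : 2 ≤ k) (hkn : 2 * k < n) {s : ℝ}
    (hs : cosh (4 * s) * cos (π * k / n) = cos (π / n)) :
    ∃ F G : Fin n → (ℝ ≃o ℝ), ∃ P Q : Fin n → PSL(2, ℝ),
      (∀ i, IsLift (P i) (F i)) ∧ (∀ i, IsLift (Q i) (G i)) ∧
      (∀ i x, |F i x - (x + π)| ≤ 2 * |sinh s|) ∧ (∀ i x, |G i x - (x + π)| ≤ 2 * |sinh s|) ∧
      (List.ofFn fun i => F i * G i * (F i)⁻¹ * (G i)⁻¹).prod =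
        T (((1 : ℤ) - (k : ℤ) : ℤ) * (2 * π)) := by
  have hn : (0 : ℝ) < n := by
    have : 0 < n := by omega
    exact_mod_cast this
  have hk' : (2 : ℝ) ≤ k := by exact_mod_cast hk
  have hkn' : 2 * (k : ℝ) < n := by exact_mod_cast hkn
  have hpi := pi_pos
  set θ : ℝ := 2 * (π * k / n) with hθ
  have hθ2 : θ / 2 = π * k / n := by rw [hθ]; ring
  have hθpos : 0 < θ := by rw [hθ]; positivity
  have hθlt : θ < 2 * π := by
    rw [hθ]
    have : π * k / n < π := by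
      rw [div_lt_iff₀ hn]; nlinarith
    linarith
  have hcos : cosh (-(4 * s)) * cos (θ / 2) = cos (π / n) := by rw [cosh_neg, hθ2, hs]
  have hpn : 0 < π / n := by positivity
  have hpn' : π / n < π / 2 := by
    rw [div_lt_div_iff₀ hn (by norm_num)]; nlinarith
  have hc1 : -1 < cos (π / n) := by
    have := cos_pos_of_mem_Ioo ⟨by linarith, hpn'⟩; linarith
  have hc2 : cos (π / n) < 1 := by
    have := cos_lt_cos_of_nonneg_of_le_pi_div_two (le_refl 0) hpn'.le hpn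
    rwa [cos_zero] at this
  obtain ⟨v, hv⟩ := std_conj (τ := -(4 * s)) hθpos hθlt (by rw [hcos]; exact hc1)
    (by rw [hcos]; exact hc2)
  rw [hcos, arccos_cos hpn.le (by linarith)] at hv
  have hpow := pow_eq_of_conj_int hv n 1 (by push_cast; field_simp)
  refine ⟨fun i => T θ ^ (i : ℕ) * (T π * D s) * (T θ ^ (i : ℕ))⁻¹,
    fun i => T θ ^ (i : ℕ) * (T π * D (-s)) * (T θ ^ (i : ℕ))⁻¹,
    fun i => (QuotientGroup.mk (rot θ) : PSL(2, ℝ)) ^ (i : ℕ) *
      (QuotientGroup.mk (rot π) * QuotientGroup.mk (dia s)) *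
      ((QuotientGroup.mk (rot θ) : PSL(2, ℝ)) ^ (i : ℕ))⁻¹,
    fun i => (QuotientGroup.mk (rot θ) : PSL(2, ℝ)) ^ (i : ℕ) *
      (QuotientGroup.mk (rot π) * QuotientGroup.mk (dia (-s))) *
      ((QuotientGroup.mk (rot θ) : PSL(2, ℝ)) ^ (i : ℕ))⁻¹, ?_, ?_, ?_, ?_, ?_⟩
  · intro i
    exact (((isLift_T θ).pow i).mul ((isLift_T π).mul (isLift_D s))).mul ((isLift_T θ).pow i).inv
  · intro i
    exact (((isLift_T θ).pow i).mul ((isLift_T π).mul (isLift_D (-s)))).mul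
      ((isLift_T θ).pow i).inv
  · intro i x
    have h := D_disp s (x - i * θ)
    beta_reduce
    rw [T_pow, T_inv]
    simp only [RelIso.mul_apply, T_apply]
    convert h using 2
    rw [← sub_eq_add_neg]; ring
  · intro i x
    have h := D_disp (-s) (x - i * θ)
    rw [sinh_neg, abs_neg] at h
    beta_reduce
    rw [T_pow, T_inv]
    simp only [RelIso.mul_apply, T_apply]
    convert h using 2
    rw [← sub_eq_add_neg]; ring
  · have h1 : ∀ i : Fin n, (T θ ^ (i : ℕ) * (T π * D s) * (T θ ^ (i : ℕ))⁻¹) *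
        (T θ ^ (i : ℕ) * (T π * D (-s)) * (T θ ^ (i : ℕ))⁻¹) *
        (T θ ^ (i : ℕ) * (T π * D s) * (T θ ^ (i : ℕ))⁻¹)⁻¹ *
        (T θ ^ (i : ℕ) * (T π * D (-s)) * (T θ ^ (i : ℕ))⁻¹)⁻¹ =
        T θ ^ (i : ℕ) * D (-(4 * s)) * (T θ ^ (i : ℕ))⁻¹ := by
      intro i
      rw [← comm_std]; group
    simp only [h1]
    rw [ofFn_prod_conj, hpow, T_pow, T_inv, T_mul]
    congr 1
    rw [hθ]; push_cast; field_simp; ring

end Pool.Agent.Lib.Pb43922
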